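import Pool.Agent.FS49.Defs

/-!
# FS49/Base: hulls of index sets
-/

set_option autoImplicit false

namespace Pool.Agent.FS49

open Pool.Agent.HR54 Pool.Agent.RT16

variable {V : Type} {p : ℕ} {𝒞 : Set (Set V)} {a : Fin p → V}

theorem InC.mono {w : V} {S T : Finset (Fin p)} (h : InC 𝒞 a w S) (hST : S ⊆ T) : InC 𝒞 a w T :=
  hull_mono 𝒞 (Set.image_mono (Finset.coe_subset.2 hST)) h

/-- A vertex in the hull of two vertices of `C_S` is in `C_S`. -/
theorem inC_of_hull [Finite V] {G : SimpleGraph V} (hF : Fam G 𝒞 a) {w x y : V}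
    {S : Finset (Fin p)} (hx : InC 𝒞 a x S) (hy : InC 𝒞 a y S) (hw : w ∈ hull 𝒞 {x, y}) :
    InC 𝒞 a w S := by
  refine hull_le hF.conv ?_ hw
  rintro u (rfl | hu)
  · exact hx
  · rw [Set.mem_singleton_iff.1 hu]
    exact hy

theorem inC_disj {G : SimpleGraph V} (hF : Fam G 𝒞 a) {w : V} {S T : Finset (Fin p)}
    (hST : Disjoint S T) (h1 : InC 𝒞 a w S) (h2 : InC 𝒞 a w T) : False :=
  Set.disjoint_left.1 (hF.disj _ _ (Finset.disjoint_coe.2 hST)) h1 h2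

theorem hull_disj [Finite V] {G : SimpleGraph V} (hF : Fam G 𝒞 a) {x y z w : V}
    {S T : Finset (Fin p)} (hST : Disjoint S T) (hx : InC 𝒞 a x S) (hy : InC 𝒞 a y S)
    (hz : InC 𝒞 a z T) (hw : InC 𝒞 a w T) : Disjoint (hull 𝒞 {x, y}) (hull 𝒞 {z, w}) := by
  rw [Set.disjoint_left]
  intro u hu hu'
  exact inC_disj hF hST (inC_of_hull hF hx hy hu) (inC_of_hull hF hz hw hu')

theorem inC_point (i : Fin p) : InC 𝒞 a (a i) {i} :=
  subset_hull 𝒞 _ ⟨i, by simp, rfl⟩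

end Pool.Agent.FS49
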