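import Pool.Agent.FS49.Defs

/-!
# FS49/FarCount: at most `(D₁ D₂) ^ 2` indices are not far from `x`

`#{w : Meet E x w} ≤ D₁ D₂` (`w` in the union over `i ∈ E x` of `{w : i ∈ E w}`), twice (`card_biUnion_le`).
-/

set_option autoImplicit false

namespace Pool.Agent.FS49

open Pool.Agent.HR54 Pool.Agent.RT16

open Classical in
theorem meet_count {p : ℕ} {U : Type} [Fintype U] {E : U → Finset (Fin p)} {D₁ D₂ : ℕ}
    (h : Bdd E D₁ D₂) (x : U) :
    (Finset.univ.filter fun y => Meet E x y).card ≤ D₁ * D₂ := by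
  have h1 : (Finset.univ.filter fun y => Meet E x y) ⊆
      (E x).biUnion (fun i => Finset.univ.filter fun w => i ∈ E w) := by
    intro y hy
    have h2 : ¬ Disjoint (E x) (E y) := (Finset.mem_filter.mp hy).2
    rw [Finset.not_disjoint_iff] at h2
    obtain ⟨i, hi, hi'⟩ := h2
    exact Finset.mem_biUnion.mpr ⟨i, hi, Finset.mem_filter.mpr ⟨Finset.mem_univ _, hi'⟩⟩
  calc _ ≤ _ := Finset.card_le_card h1
    _ ≤ ∑ i ∈ E x, (Finset.univ.filter fun w => i ∈ E w).card := Finset.card_biUnion_le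
    _ ≤ ∑ _i ∈ E x, D₂ := Finset.sum_le_sum fun i _ => h.2 i
    _ = (E x).card * D₂ := by rw [Finset.sum_const, smul_eq_mul]
    _ ≤ D₁ * D₂ := Nat.mul_le_mul_right _ (h.1 x)

open Classical in
theorem far_count {p : ℕ} {U : Type} [Fintype U] {E : U → Finset (Fin p)} {D₁ D₂ : ℕ}
    (h : Bdd E D₁ D₂) (x : U) :
    (Finset.univ.filter fun y => ¬ Far E x y).card ≤ (D₁ * D₂) ^ 2 := by
  have h1 : (Finset.univ.filter fun y => ¬ Far E x y) ⊆
      (Finset.univ.filter fun w => Meet E x w).biUnion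
        (fun w => Finset.univ.filter fun y => Meet E w y) := by
    intro y hy
    have h2 : ¬ Far E x y := (Finset.mem_filter.mp hy).2
    unfold Far at h2
    push Not at h2
    obtain ⟨w, hw, hw'⟩ := h2
    exact Finset.mem_biUnion.mpr ⟨w, Finset.mem_filter.mpr ⟨Finset.mem_univ _, hw⟩,
      Finset.mem_filter.mpr ⟨Finset.mem_univ _, hw'⟩⟩
  calc _ ≤ _ := Finset.card_le_card h1
    _ ≤ ∑ w ∈ Finset.univ.filter (fun w => Meet E x w),
        (Finset.univ.filter fun y => Meet E w y).card := Finset.card_biUnion_le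
    _ ≤ ∑ _w ∈ Finset.univ.filter (fun w => Meet E x w), D₁ * D₂ :=
        Finset.sum_le_sum fun w _ => meet_count h w
    _ = (Finset.univ.filter (fun w => Meet E x w)).card * (D₁ * D₂) := by
        rw [Finset.sum_const, smul_eq_mul]
    _ ≤ (D₁ * D₂) * (D₁ * D₂) := Nat.mul_le_mul_right _ (meet_count h x)
    _ = (D₁ * D₂) ^ 2 := (sq _).symm

end Pool.Agent.FS49
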