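import Mathlib

/-!
# FS49/Pairing: two greedy pairings

`pair_dense`, induction on `k`: given `f`, `g` for `k`, choose `x` not used, then `y ≠ x` not used with `¬ R x y` and, for the (at most `D`)
indices `i` with `R x (g i)`, `¬ R (f i) y`: at most `2 k + 1 + D + D ^ 2 < card U` elements are forbidden for `y`.
`Fin.snoc`. `pair_sparse`: the same, easier: `2 k + 1 + D < R.card` are forbidden.
-/

set_option autoImplicit false

namespace Pool.Agent.FS49

theorem inj_snoc {U : Type} {k : ℕ} {f : Fin k → U} {x : U} (hf : Function.Injective f)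
    (hx : ∀ i, f i ≠ x) : Function.Injective (Fin.snoc (α := fun _ => U) f x) := by
  intro i j
  refine Fin.lastCases ?_ (fun i => ?_) i <;> refine Fin.lastCases ?_ (fun j => ?_) j
  · intro _; rfl
  · intro h
    rw [Fin.snoc_last, Fin.snoc_castSucc] at h
    exact absurd h.symm (hx j)
  · intro h
    rw [Fin.snoc_last, Fin.snoc_castSucc] at h
    exact absurd h (hx i)
  · intro h
    rw [Fin.snoc_castSucc, Fin.snoc_castSucc] at h
    rw [hf h]

theorem ne_snoc {U : Type} {k : ℕ} {f g : Fin k → U} {x y : U} (h : ∀ i j, f i ≠ g j)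
    (hxy : x ≠ y) (hx : ∀ i, g i ≠ x) (hy : ∀ i, f i ≠ y) (i j : Fin (k + 1)) :
    Fin.snoc (α := fun _ => U) f x i ≠ Fin.snoc (α := fun _ => U) g y j := by
  refine Fin.lastCases ?_ (fun i => ?_) i <;> refine Fin.lastCases ?_ (fun j => ?_) j
  · rw [Fin.snoc_last, Fin.snoc_last]
    exact hxy
  · rw [Fin.snoc_last, Fin.snoc_castSucc]
    exact (hx j).symm
  · rw [Fin.snoc_last, Fin.snoc_castSucc]
    exact hy i
  · rw [Fin.snoc_castSucc, Fin.snoc_castSucc]
    exact h i j

open Classical in
theorem pair_dense {U : Type} [Fintype U] (R : U → U → Prop) (hs : ∀ x y, R x y → R y x)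
    {D q k : ℕ} (hD : ∀ x, (Finset.univ.filter fun y => R x y).card ≤ D)
    (hq : 2 * q ≤ Fintype.card U) (hk : k + D ^ 2 + D ≤ q) :
    ∃ f g : Fin k → U, Function.Injective f ∧ Function.Injective g ∧ (∀ i j, f i ≠ g j) ∧
      (∀ i, ¬ R (f i) (g i)) ∧ ∀ i j, i ≠ j → ¬ R (f i) (g j) ∨ ¬ R (f j) (g i) := by
  induction k with
  | zero =>
    exact ⟨Fin.elim0, Fin.elim0, fun i => i.elim0, fun i => i.elim0, fun i => i.elim0,
      fun i => i.elim0, fun i => i.elim0⟩
  | succ k ih =>
    obtain ⟨f, g, hf, hg, hfg, hR, hRR⟩ := ih (by omega)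
    have cf : (Finset.univ.image f).card ≤ k := by
      refine Finset.card_image_le.trans (le_of_eq ?_)
      rw [Finset.card_univ, Fintype.card_fin]
    have cg : (Finset.univ.image g).card ≤ k := by
      refine Finset.card_image_le.trans (le_of_eq ?_)
      rw [Finset.card_univ, Fintype.card_fin]
    have c1 := Finset.card_union_le (Finset.univ.image f) (Finset.univ.image g)
    obtain ⟨x, -, hx⟩ := Finset.exists_mem_notMem_of_card_lt_card
      (s := Finset.univ.image f ∪ Finset.univ.image g) (t := (Finset.univ : Finset U))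
      (by rw [Finset.card_univ]; omega)
    have hxf : ∀ i, f i ≠ x := fun i h => hx (Finset.mem_union_left _
      (Finset.mem_image.2 ⟨i, Finset.mem_univ _, h⟩))
    have hxg : ∀ i, g i ≠ x := fun i h => hx (Finset.mem_union_right _
      (Finset.mem_image.2 ⟨i, Finset.mem_univ _, h⟩))
    obtain ⟨I, hI⟩ : ∃ I : Finset (Fin k), I = Finset.univ.filter (fun i => R x (g i)) := ⟨_, rfl⟩
    obtain ⟨P, hP⟩ : ∃ P : Finset U, P = I.biUnion
      (fun i => Finset.univ.filter (fun y => R (f i) y)) := ⟨_, rfl⟩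
    have cI : I.card ≤ D := by
      refine le_trans ?_ (hD x)
      refine Finset.card_le_card_of_injOn g ?_ hg.injOn
      intro i hi
      rw [hI, Finset.mem_coe, Finset.mem_filter] at hi
      exact Finset.mem_coe.2 (Finset.mem_filter.2 ⟨Finset.mem_univ _, hi.2⟩)
    have cP : P.card ≤ D * D := by
      rw [hP]
      exact (Finset.card_biUnion_le_card_mul _ _ D (fun i _ => hD (f i))).trans
        (Nat.mul_le_mul_right D cI)
    obtain ⟨Q, hQ⟩ : ∃ Q : Finset U, Q = Finset.univ.filter (fun y => R x y) := ⟨_, rfl⟩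
    have cQ : Q.card ≤ D := by rw [hQ]; exact hD x
    have c2 := Finset.card_union_le (Finset.univ.image f ∪ Finset.univ.image g) {x}
    have c3 := Finset.card_union_le ((Finset.univ.image f ∪ Finset.univ.image g) ∪ {x}) Q
    have c4 := Finset.card_union_le (((Finset.univ.image f ∪ Finset.univ.image g) ∪ {x}) ∪ Q) P
    rw [Finset.card_singleton] at c2
    have hsq : D ^ 2 = D * D := sq D
    obtain ⟨y, -, hy⟩ := Finset.exists_mem_notMem_of_card_lt_card
      (s := (((Finset.univ.image f ∪ Finset.univ.image g) ∪ {x}) ∪ Q) ∪ P)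
      (t := (Finset.univ : Finset U)) (by rw [Finset.card_univ]; omega)
    simp only [Finset.mem_union, Finset.mem_singleton, not_or] at hy
    obtain ⟨⟨⟨⟨hyf, hyg⟩, hyx⟩, hyQ⟩, hyP⟩ := hy
    have hyf' : ∀ i, f i ≠ y := fun i h => hyf (Finset.mem_image.2 ⟨i, Finset.mem_univ _, h⟩)
    have hyg' : ∀ i, g i ≠ y := fun i h => hyg (Finset.mem_image.2 ⟨i, Finset.mem_univ _, h⟩)
    have hRxy : ¬ R x y := fun h => hyQ (by rw [hQ]; exact Finset.mem_filter.2 ⟨Finset.mem_univ _, h⟩)
    have hnew : ∀ i, ¬ R x (g i) ∨ ¬ R (f i) y := by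
      intro i
      by_cases h : R x (g i)
      · right
        intro h2
        apply hyP
        rw [hP, Finset.mem_biUnion]
        refine ⟨i, ?_, Finset.mem_filter.2 ⟨Finset.mem_univ _, h2⟩⟩
        rw [hI]
        exact Finset.mem_filter.2 ⟨Finset.mem_univ _, h⟩
      · exact Or.inl h
    refine ⟨Fin.snoc (α := fun _ => U) f x, Fin.snoc (α := fun _ => U) g y, inj_snoc hf hxf,
      inj_snoc hg hyg', ne_snoc hfg (fun h => hyx h.symm) hxg hyf', ?_, ?_⟩
    · intro i
      refine Fin.lastCases ?_ (fun i => ?_) i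
      · rw [Fin.snoc_last, Fin.snoc_last]
        exact hRxy
      · rw [Fin.snoc_castSucc, Fin.snoc_castSucc]
        exact hR i
    · intro i j
      refine Fin.lastCases ?_ (fun i => ?_) i <;> refine Fin.lastCases ?_ (fun j => ?_) j
      · intro h
        exact absurd rfl h
      · intro _
        rw [Fin.snoc_last, Fin.snoc_last, Fin.snoc_castSucc, Fin.snoc_castSucc]
        exact hnew j
      · intro _
        rw [Fin.snoc_last, Fin.snoc_last, Fin.snoc_castSucc, Fin.snoc_castSucc]
        exact (hnew i).symm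
      · intro h
        rw [Fin.snoc_castSucc, Fin.snoc_castSucc, Fin.snoc_castSucc, Fin.snoc_castSucc]
        exact hRR i j (fun e => h (by rw [e]))

open Classical in
theorem pair_sparse {U : Type} (R : Finset U) (N : U → U → Prop) {D k : ℕ}
    (hD : ∀ x ∈ R, (R.filter fun y => N x y).card ≤ D) (hk : 2 * k + D ≤ R.card) :
    ∃ f g : Fin k → U, Function.Injective f ∧ Function.Injective g ∧ (∀ i j, f i ≠ g j) ∧
      (∀ i, f i ∈ R) ∧ (∀ i, g i ∈ R) ∧ ∀ i, ¬ N (f i) (g i) := by
  induction k with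
  | zero =>
    exact ⟨Fin.elim0, Fin.elim0, fun i => i.elim0, fun i => i.elim0, fun i => i.elim0,
      fun i => i.elim0, fun i => i.elim0, fun i => i.elim0⟩
  | succ k ih =>
    obtain ⟨f, g, hf, hg, hfg, hfR, hgR, hN⟩ := ih (by omega)
    have cf : (Finset.univ.image f).card ≤ k := by
      refine Finset.card_image_le.trans (le_of_eq ?_)
      rw [Finset.card_univ, Fintype.card_fin]
    have cg : (Finset.univ.image g).card ≤ k := by
      refine Finset.card_image_le.trans (le_of_eq ?_)
      rw [Finset.card_univ, Fintype.card_fin]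
    have c1 := Finset.card_union_le (Finset.univ.image f) (Finset.univ.image g)
    obtain ⟨x, hxR, hx⟩ := Finset.exists_mem_notMem_of_card_lt_card
      (s := Finset.univ.image f ∪ Finset.univ.image g) (t := R) (by omega)
    have hxf : ∀ i, f i ≠ x := fun i h => hx (Finset.mem_union_left _
      (Finset.mem_image.2 ⟨i, Finset.mem_univ _, h⟩))
    have hxg : ∀ i, g i ≠ x := fun i h => hx (Finset.mem_union_right _
      (Finset.mem_image.2 ⟨i, Finset.mem_univ _, h⟩))
    obtain ⟨Q, hQ⟩ : ∃ Q : Finset U, Q = R.filter (fun y => N x y) := ⟨_, rfl⟩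
    have cQ : Q.card ≤ D := by rw [hQ]; exact hD x hxR
    have c2 := Finset.card_union_le (Finset.univ.image f ∪ Finset.univ.image g) {x}
    have c3 := Finset.card_union_le ((Finset.univ.image f ∪ Finset.univ.image g) ∪ {x}) Q
    rw [Finset.card_singleton] at c2
    obtain ⟨y, hyR, hy⟩ := Finset.exists_mem_notMem_of_card_lt_card
      (s := ((Finset.univ.image f ∪ Finset.univ.image g) ∪ {x}) ∪ Q) (t := R) (by omega)
    simp only [Finset.mem_union, Finset.mem_singleton, not_or] at hy
    obtain ⟨⟨⟨hyf, hyg⟩, hyx⟩, hyQ⟩ := hy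
    have hyf' : ∀ i, f i ≠ y := fun i h => hyf (Finset.mem_image.2 ⟨i, Finset.mem_univ _, h⟩)
    have hyg' : ∀ i, g i ≠ y := fun i h => hyg (Finset.mem_image.2 ⟨i, Finset.mem_univ _, h⟩)
    have hNxy : ¬ N x y := fun h => hyQ (by rw [hQ]; exact Finset.mem_filter.2 ⟨hyR, h⟩)
    refine ⟨Fin.snoc (α := fun _ => U) f x, Fin.snoc (α := fun _ => U) g y, inj_snoc hf hxf,
      inj_snoc hg hyg', ne_snoc hfg (fun h => hyx h.symm) hxg hyf', ?_, ?_, ?_⟩
    · intro i
      refine Fin.lastCases ?_ (fun i => ?_) i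
      · rw [Fin.snoc_last]; exact hxR
      · rw [Fin.snoc_castSucc]; exact hfR i
    · intro i
      refine Fin.lastCases ?_ (fun i => ?_) i
      · rw [Fin.snoc_last]; exact hyR
      · rw [Fin.snoc_castSucc]; exact hgR i
    · intro i
      refine Fin.lastCases ?_ (fun i => ?_) i
      · rw [Fin.snoc_last, Fin.snoc_last]; exact hNxy
      · rw [Fin.snoc_castSucc, Fin.snoc_castSucc]; exact hN i

end Pool.Agent.FS49
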