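import Pool.Agent.FS49.Base
import Pool.Agent.RT16.Minor

/-!
# FS49/WebG: a good graph without bad triangles is a minor

`Web G H v (fun x y => hull 𝒞 {v x, v y})` as in RT16/WebU (`web_of_usys`): `sep` by `Good.sep` and `hull_disj`; `notMem` by
`Good.sep` with `z = w`, `inC_of_hull`, `inC_disj`; `inj` by `ISys.sep` and `inC_disj`; `tri` from `ht` (`Set.not_nonempty_iff_eq_empty`).
Then `minor_of_web`.
-/

set_option autoImplicit false

namespace Pool.Agent.FS49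

open Pool.Agent.HR54 Pool.Agent.RT16

variable {V : Type} {p : ℕ} {𝒞 : Set (Set V)} {a : Fin p → V} {U : Type} {v : U → V}
  {E : U → Finset (Fin p)}

theorem web_of_good [Finite V] {G : SimpleGraph V} (hF : Fam G 𝒞 a) {H : SimpleGraph U}
    (hG : Good 𝒞 a v E H)
    (ht : ∀ x y z, H.Adj x y → H.Adj x z → H.Adj y z → ¬ Bad 𝒞 (v x) (v y) (v z)) :
    Web G H v (fun x y => hull 𝒞 {v x, v y}) := by
  refine ⟨?_, ?_, ?_, ?_, ?_, ?_, ?_, ?_⟩
  · intro x y
    show hull 𝒞 {v x, v y} = hull 𝒞 {v y, v x}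
    rw [Set.pair_comm]
  · intro x y
    exact subset_hull 𝒞 _ (Set.mem_insert _ _)
  · intro x y
    exact hF.conv.conn _ (hull_mem hF.conv _)
  · intro x y z
    exact hF.conv.conn _ (hF.conv.inter _ (hull_mem hF.conv _) _ (hull_mem hF.conv _))
  · intro x y z w hxy hzw h1 h2 h3 h4
    obtain ⟨P, Q, -, -, hPQ, hx, hy, hz, hw⟩ := hG.sep x y z w hxy (Or.inl hzw) h1 h2 h3 h4
    exact hull_disj hF hPQ hx hy hz hw
  · intro x y z hxy hzx hzy hmem
    obtain ⟨P, Q, -, -, hPQ, hx, hy, hz, -⟩ := hG.sep x y z z hxy (Or.inr rfl) hzx.symm hzx.symm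
      hzy.symm hzy.symm
    exact inC_disj hF hPQ (inC_of_hull hF hx hy hmem) hz
  · intro x y z h1 h2 h3
    exact Set.not_nonempty_iff_eq_empty.1 (ht x y z h1 h2 h3)
  · intro x y hxy
    by_contra hne
    obtain ⟨P, Q, -, -, hPQ, hx, hy⟩ := hG.isys.sep x y hne
    rw [hxy] at hx
    exact inC_disj hF hPQ hx hy

theorem minor_of_good [Finite V] {G : SimpleGraph V} (hF : Fam G 𝒞 a) {H : SimpleGraph U}
    (hG : Good 𝒞 a v E H)
    (ht : ∀ x y z, H.Adj x y → H.Adj x z → H.Adj y z → ¬ Bad 𝒞 (v x) (v y) (v z)) :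
    ∃ B : U → Set V, (∀ x, (G.induce (B x)).Connected) ∧
      (∀ x y, x ≠ y → Disjoint (B x) (B y)) ∧ ∀ x y, H.Adj x y → Touch G (B x) (B y) :=
  minor_of_web (web_of_good hF hG ht)

end Pool.Agent.FS49
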