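import Pool.Agent.FS49.FarSep
import Pool.Agent.FS49.WebG
import Pool.Agent.FS49.FarCount
import Pool.Agent.FS49.Pairing
import Pool.Agent.RT16.Pair

/-!
# FS49/Bip: many index vertices with bounded interaction give a clique minor

`pair_dense` with `R x y = ¬ Far E x y` (`Far.symm`, `far_count`) gives `f`, `g : Fin h → U`. `H x y`: `Far E x y` and one of `x`, `y` is in the range of `f`,
the other in the range of `g`: no triangles (the ranges are disjoint). `good_far`, `minor_of_good`, `clique_of_pairs` (`ι = Fin h`).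
-/

set_option autoImplicit false

namespace Pool.Agent.FS49

open Pool.Agent.HR54 Pool.Agent.RT16

theorem bip {V U : Type} [Finite V] [Fintype U] {G : SimpleGraph V} {p : ℕ} {𝒞 : Set (Set V)}
    {a : Fin p → V} (hF : Fam G 𝒞 a) {v : U → V} {E : U → Finset (Fin p)}
    (hI : ISys 𝒞 a v E) {D₁ D₂ : ℕ} (hB : Bdd E D₁ D₂) {q h : ℕ}
    (hq : 2 * q ≤ Fintype.card U) (hh : h + ((D₁ * D₂) ^ 2) ^ 2 + (D₁ * D₂) ^ 2 ≤ q) :
    CliqueMinor G h := by
  classical
  obtain ⟨f, g, hf, hg, hfg, h1, h2⟩ := pair_dense (fun x y => ¬ Far E x y)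
    (fun x y h h' => h (Far.symm h')) (fun x => by convert far_count hB x) hq hh
  let H : SimpleGraph U :=
    { Adj := fun x y => Far E x y ∧
        (((∃ i, x = f i) ∧ (∃ j, y = g j)) ∨ ((∃ j, x = g j) ∧ (∃ i, y = f i)))
      symm := ⟨by
        rintro x y ⟨h3, h4⟩
        refine ⟨h3.symm, ?_⟩
        rcases h4 with ⟨h5, h6⟩ | ⟨h5, h6⟩
        · exact Or.inr ⟨h6, h5⟩
        · exact Or.inl ⟨h6, h5⟩⟩
      loopless := ⟨by
        rintro x ⟨h3, -⟩
        exact Far.ne hI h3 rfl⟩ }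
  have hno : ∀ x, (∃ i, x = f i) → ¬ ∃ j, x = g j := by
    rintro x ⟨i, hi⟩ ⟨j, hj⟩
    exact hfg i j (hi.symm.trans hj)
  have htri : ∀ x y z, H.Adj x y → H.Adj x z → H.Adj y z → False := by
    intro x y z hxy hxz hyz
    rcases hxy.2 with ⟨a1, a2⟩ | ⟨a1, a2⟩
    · rcases hxz.2 with ⟨-, b2⟩ | ⟨b1, -⟩
      · rcases hyz.2 with ⟨c1, -⟩ | ⟨-, c2⟩
        · exact hno y c1 a2
        · exact hno z c2 b2
      · exact hno x a1 b1
    · rcases hxz.2 with ⟨b1, -⟩ | ⟨-, b2⟩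
      · exact hno x b1 a1
      · rcases hyz.2 with ⟨-, c2⟩ | ⟨c1, -⟩
        · exact hno z b2 c2
        · exact hno y a2 c1
  have hG : Good 𝒞 a v E H := good_far hI H (fun x y h => h.1)
  obtain ⟨B, hc, hd, ht⟩ := minor_of_good hF hG
    (fun x y z hxy hxz hyz _ => htri x y z hxy hxz hyz)
  have hadj : ∀ i j, Far E (f i) (g j) → H.Adj (f i) (g j) :=
    fun i j h => ⟨h, Or.inl ⟨⟨i, rfl⟩, ⟨j, rfl⟩⟩⟩
  refine clique_of_pairs hc hd ht f g (fun i => Or.inr (hadj i i (not_not.1 (h1 i))))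
    (fun i j hij => ⟨hf.ne hij, hg.ne hij, hfg i j⟩) (fun i j hij => ?_)
    (h := h) (by rw [Fintype.card_fin])
  rcases h2 i j hij with h3 | h3
  · exact Or.inr (Or.inl (hadj i j (not_not.1 h3)))
  · exact Or.inr (Or.inr (hadj j i (not_not.1 h3)))

end Pool.Agent.FS49
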