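import Pool.Agent.RT16.FamR

/-!
# FS49/Defs (MP_93e89b_co): Radon number and Hadwiger number are asymptotically equal, definitions

Paper proof: note 3583. `InC`: a vertex lies in the hull of the points with index in `S`. `Bad`: the
three hulls of the pairs have a common vertex. `ISys`: index vertices `v x` with sets `E x` of
points, any two are separated inside their sets. `Good`: the edges of `H` are separated as well.
-/

set_option autoImplicit false

namespace Pool.Agent.FS49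

open Pool.Agent.HR54 Pool.Agent.RT16

variable {V : Type} {p : ℕ}

/-- The vertex `w` lies in the hull of the points with index in `S`. -/
def InC (𝒞 : Set (Set V)) (a : Fin p → V) (w : V) (S : Finset (Fin p)) : Prop :=
  w ∈ hull 𝒞 (a '' (S : Set (Fin p)))

/-- The hulls of the three pairs have a common vertex. -/
def Bad (𝒞 : Set (Set V)) (x y z : V) : Prop :=
  (hull 𝒞 {x, y} ∩ hull 𝒞 {x, z} ∩ hull 𝒞 {y, z}).Nonempty

/-- Index vertices `v x` with sets of points `E x`: any two are separated inside their sets. -/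
structure ISys (𝒞 : Set (Set V)) (a : Fin p → V) {U : Type} (v : U → V)
    (E : U → Finset (Fin p)) : Prop where
  ne : ∀ x, (E x).Nonempty
  mem : ∀ x, InC 𝒞 a (v x) (E x)
  sep : ∀ x y, x ≠ y → ∃ P Q : Finset (Fin p), P ⊆ E x ∧ Q ⊆ E y ∧ Disjoint P Q ∧
    InC 𝒞 a (v x) P ∧ InC 𝒞 a (v y) Q

/-- `E x` and `E y` meet. -/
def Meet {U : Type} (E : U → Finset (Fin p)) (x y : U) : Prop := ¬ Disjoint (E x) (E y)

/-- No `E w` meets both `E x` and `E y`. -/
def Far {U : Type} (E : U → Finset (Fin p)) (x y : U) : Prop :=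
  ∀ w, Meet E x w → ¬ Meet E w y

/-- The pairs `x y` and `z w` are separated. -/
def Sep2 (𝒞 : Set (Set V)) (a : Fin p → V) {U : Type} (v : U → V) (E : U → Finset (Fin p))
    (x y z w : U) : Prop :=
  ∃ P Q : Finset (Fin p), P ⊆ E x ∪ E y ∧ Q ⊆ E z ∪ E w ∧ Disjoint P Q ∧
    InC 𝒞 a (v x) P ∧ InC 𝒞 a (v y) P ∧ InC 𝒞 a (v z) Q ∧ InC 𝒞 a (v w) Q

/-- Disjoint edges of `H` are separated, and an edge and a vertex outside it as well. -/
structure Good (𝒞 : Set (Set V)) (a : Fin p → V) {U : Type} (v : U → V)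
    (E : U → Finset (Fin p)) (H : SimpleGraph U) : Prop where
  isys : ISys 𝒞 a v E
  sep : ∀ x y z w, H.Adj x y → (H.Adj z w ∨ z = w) → x ≠ z → x ≠ w → y ≠ z → y ≠ w →
    Sep2 𝒞 a v E x y z w

open Classical in
/-- The sets `E x` have at most `D₁` points and every point is in at most `D₂` of them. -/
def Bdd {U : Type} [Fintype U] (E : U → Finset (Fin p)) (D₁ D₂ : ℕ) : Prop :=
  (∀ x, (E x).card ≤ D₁) ∧ ∀ i : Fin p, (Finset.univ.filter fun x => i ∈ E x).card ≤ D₂

open Classical in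
/-- `t` is a triangle of `H` and a bad triple. -/
def BadTri (𝒞 : Set (Set V)) {U : Type} (v : U → V) (H : SimpleGraph U) (t : Finset U) : Prop :=
  ∃ x y z, t = {x, y, z} ∧ H.Adj x y ∧ H.Adj x z ∧ H.Adj y z ∧ Bad 𝒞 (v x) (v y) (v z)

open Classical in
/-- The system of active and reserve index vertices: `S x` is the support of `x`, `u x` the third
index used when `x` was created (`u x = x` for points), `A` the set of active indices. -/
structure Sys (𝒞 : Set (Set V)) (a : Fin p → V) (M n : ℕ) where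
  v : Fin n → V
  S : Fin n → Finset (Fin p)
  u : Fin n → Fin n
  A : Finset (Fin n)
  mem : ∀ x, InC 𝒞 a (v x) (S x)
  ne : ∀ x, (S x).Nonempty
  small : ∀ x, (S x).card ≤ M
  sep : ∀ x y, x ≠ y → ∃ P Q : Finset (Fin p), P ⊆ S x ∪ S (u x) ∧ Q ⊆ S y ∪ S (u y) ∧
    Disjoint P Q ∧ InC 𝒞 a (v x) P ∧ InC 𝒞 a (v y) Q
  adisj : ∀ r ∈ A, ∀ s ∈ A, r ≠ s → Disjoint (S r) (S s)
  lam : ∀ r ∈ A, ∀ x, S x ⊆ S r ∨ Disjoint (S x) (S r)
  avoid : ∀ r ∈ A, ∀ x, x ≠ r → Disjoint (S r) (S x) ∨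
    ∃ P : Finset (Fin p), P ⊆ S r ∪ S (u r) ∧ Disjoint P (S x) ∧ InC 𝒞 a (v r) P
  cover : ∀ i : Fin p, ∃ r ∈ A, i ∈ S r
  chain : ∀ r ∈ A, ∀ i ∈ S r, (Finset.univ.filter fun x => i ∈ S x).card ≤ (S r).card
  mult : ∀ y, (Finset.univ.filter fun x => u x = y).card ≤ M + 1
  card : n + A.card = 2 * p

/-- The sets `E x` of a system. -/
def Sys.E {𝒞 : Set (Set V)} {a : Fin p → V} {M n : ℕ} (s : Sys 𝒞 a M n) (x : Fin n) :
    Finset (Fin p) := s.S x ∪ s.S (s.u x)

/-- The graph of a system: far pairs and pairs of active indices. -/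
def Sys.H {𝒞 : Set (Set V)} {a : Fin p → V} {M n : ℕ} (s : Sys 𝒞 a M n) :
    SimpleGraph (Fin n) where
  Adj x y := x ≠ y ∧ (Far s.E x y ∨ (x ∈ s.A ∧ y ∈ s.A))
  symm := ⟨by
    rintro x y ⟨h1, h2⟩
    refine ⟨h1.symm, ?_⟩
    rcases h2 with h | h
    · left
      intro w h3 h4
      exact h w (fun hd => h4 hd.symm) (fun hd => h3 hd.symm)
    · exact Or.inr ⟨h.2, h.1⟩⟩
  loopless := ⟨by
    rintro x ⟨h1, -⟩
    exact h1 rfl⟩

open Classical in
/-- Exceptional indices: large support, or used `M + 1` times. -/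
def Sys.Exc {𝒞 : Set (Set V)} {a : Fin p → V} {M n : ℕ} (s : Sys 𝒞 a M n) (r : Fin n) : Prop :=
  M < 2 * (s.S r).card ∨ M + 1 ≤ (Finset.univ.filter fun x => s.u x = r).card

end Pool.Agent.FS49
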