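import Pool.Agent.FS49.Base

/-!
# FS49/HubSys: hubs of bad triangles as new index vertices

For `t ∈ T` (`t = {x, y, z}`) choose `v' t` in the three hulls. `ISys.sep` for `U ⊕ T`: old against old: `hG.isys.sep`; old `w` against `t`: choose an edge
`x y` of `t` with `w ∉ {x, y}`; `hG.sep x y w w` gives `P ⊆ E x ∪ E y`, `Q ⊆ E w`; the hub is in `hull {v x, v y}` (`inC_of_hull`). `t` against `t' ≠ t`:
some edge of `t` and some edge of `t'` are disjoint (`|t ∩ t'| ≤ 2`): `hG.sep`. `mem`, `ne`: an edge of `t`. `hub_bdd`: `card (t.biUnion E) ≤ 3 D₁`;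
`i` is in `E x` for at most `D₂` indices `x`, each of them in at most `M` sets `t`.
-/

set_option autoImplicit false

namespace Pool.Agent.FS49

open Pool.Agent.HR54 Pool.Agent.RT16

open Classical in
theorem HubSys_data {V U : Type} {𝒞 : Set (Set V)} {v : U → V} {H : SimpleGraph U}
    {t : Finset U} (h : BadTri 𝒞 v H t) : t.card = 3 ∧
      ∃ q : V, ∀ x ∈ t, ∀ y ∈ t, x ≠ y → H.Adj x y ∧ q ∈ hull 𝒞 {v x, v y} := by
  obtain ⟨x, y, z, rfl, h1, h2, h3, q, ⟨q1, q2⟩, q3⟩ := h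
  refine ⟨Finset.card_eq_three.2 ⟨x, y, z, h1.ne, h2.ne, h3.ne, rfl⟩, q, ?_⟩
  intro a ha b hb hab
  simp only [Finset.mem_insert, Finset.mem_singleton] at ha hb
  rcases ha with rfl | rfl | rfl <;> rcases hb with rfl | rfl | rfl
  · exact absurd rfl hab
  · exact ⟨h1, q1⟩
  · exact ⟨h2, q2⟩
  · exact ⟨h1.symm, by rw [Set.pair_comm]; exact q1⟩
  · exact absurd rfl hab
  · exact ⟨h3, q3⟩
  · exact ⟨h2.symm, by rw [Set.pair_comm]; exact q2⟩
  · exact ⟨h3.symm, by rw [Set.pair_comm]; exact q3⟩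
  · exact absurd rfl hab

open Classical in
theorem HubSys_avoid {U : Type} {t : Finset U} (h : t.card = 3) (w : U) :
    ∃ x ∈ t, ∃ y ∈ t, x ≠ y ∧ x ≠ w ∧ y ≠ w := by
  have h1 : 1 < (t.erase w).card := by
    have := Finset.pred_card_le_card_erase (s := t) (a := w)
    omega
  obtain ⟨x, hx, y, hy, hxy⟩ := Finset.one_lt_card.1 h1
  exact ⟨x, Finset.mem_of_mem_erase hx, y, Finset.mem_of_mem_erase hy, hxy,
    Finset.ne_of_mem_erase hx, Finset.ne_of_mem_erase hy⟩

open Classical in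
theorem HubSys_two {U : Type} {t t' : Finset U} (h : t.card = 3) (h' : t'.card = 3)
    (hne : t ≠ t') : ∃ x ∈ t, ∃ y ∈ t, ∃ z ∈ t', ∃ w ∈ t',
      x ≠ y ∧ z ≠ w ∧ x ≠ z ∧ x ≠ w ∧ y ≠ z ∧ y ≠ w := by
  have h1 : ¬ t ⊆ t' := fun hs => hne (Finset.eq_of_subset_of_card_le hs (by omega))
  have h2 : ¬ t' ⊆ t := fun hs => hne (Finset.eq_of_subset_of_card_le hs (by omega)).symm
  obtain ⟨s, hs, hs'⟩ := Finset.not_subset.1 h1
  obtain ⟨r, hr, hr'⟩ := Finset.not_subset.1 h2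
  have h3 : 0 < (t.erase s).card := by
    have := Finset.pred_card_le_card_erase (s := t) (a := s)
    omega
  obtain ⟨x, hx⟩ := Finset.card_pos.1 h3
  have h4 : 0 < ((t'.erase r).erase x).card := by
    have := Finset.pred_card_le_card_erase (s := t') (a := r)
    have := Finset.pred_card_le_card_erase (s := t'.erase r) (a := x)
    omega
  obtain ⟨y, hy⟩ := Finset.card_pos.1 h4
  have hxt := Finset.mem_of_mem_erase hx
  have hy' := Finset.mem_of_mem_erase hy
  have hyt := Finset.mem_of_mem_erase hy'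
  refine ⟨s, hs, x, hxt, r, hr, y, hyt, (Finset.ne_of_mem_erase hx).symm,
    (Finset.ne_of_mem_erase hy').symm, ?_, ?_, ?_, ?_⟩
  · rintro rfl; exact hs' hr
  · rintro rfl; exact hs' hyt
  · rintro rfl; exact hr' hxt
  · exact (Finset.ne_of_mem_erase hy).symm

open Classical in
theorem hub_isys {V U : Type} [Finite V] {G : SimpleGraph V} {p : ℕ} {𝒞 : Set (Set V)}
    {a : Fin p → V} (hF : Fam G 𝒞 a) {v : U → V} {E : U → Finset (Fin p)} {H : SimpleGraph U}
    (hG : Good 𝒞 a v E H) (T : Finset (Finset U)) (hT : ∀ t ∈ T, BadTri 𝒞 v H t) :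
    ∃ v' : U ⊕ {t // t ∈ T} → V,
      ISys 𝒞 a v' (Sum.elim E fun t => t.1.biUnion E) := by
  have h3 : ∀ t : {t // t ∈ T}, t.1.card = 3 := fun t => (HubSys_data (hT t.1 t.2)).1
  choose q hq using fun t : {t // t ∈ T} => (HubSys_data (hT t.1 t.2)).2
  have hsub : ∀ (t : {t // t ∈ T}) (x y : U), x ∈ t.1 → y ∈ t.1 → E x ∪ E y ⊆ t.1.biUnion E :=
    fun t x y hx hy => Finset.union_subset (Finset.subset_biUnion_of_mem E hx)
      (Finset.subset_biUnion_of_mem E hy)
  -- old against new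
  have hold : ∀ (w : U) (t : {t // t ∈ T}), ∃ P Q : Finset (Fin p), P ⊆ t.1.biUnion E ∧
      Q ⊆ E w ∧ Disjoint P Q ∧ InC 𝒞 a (q t) P ∧ InC 𝒞 a (v w) Q := by
    intro w t
    obtain ⟨x, hx, y, hy, hxy, hxw, hyw⟩ := HubSys_avoid (h3 t) w
    obtain ⟨hadj, hqt⟩ := hq t x hx y hy hxy
    obtain ⟨P, Q, hP, hQ, hPQ, i1, i2, i3, -⟩ :=
      hG.sep x y w w hadj (Or.inr rfl) hxw hxw hyw hyw
    rw [Finset.union_self] at hQ
    exact ⟨P, Q, hP.trans (hsub t x y hx hy), hQ, hPQ, inC_of_hull hF i1 i2 hqt, i3⟩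
  refine ⟨Sum.elim v q, ?_, ?_, ?_⟩
  · rintro (x | t)
    · exact hG.isys.ne x
    · obtain ⟨x, hx⟩ := Finset.card_pos.1 (by have := h3 t; omega : 0 < t.1.card)
      obtain ⟨i, hi⟩ := hG.isys.ne x
      exact ⟨i, Finset.mem_biUnion.2 ⟨x, hx, hi⟩⟩
  · rintro (x | t)
    · exact hG.isys.mem x
    · obtain ⟨x, hx, y, hy, hxy⟩ := Finset.one_lt_card.1 (by have := h3 t; omega : 1 < t.1.card)
      exact inC_of_hull hF ((hG.isys.mem x).mono (Finset.subset_biUnion_of_mem E hx))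
        ((hG.isys.mem y).mono (Finset.subset_biUnion_of_mem E hy)) (hq t x hx y hy hxy).2
  · rintro (x | t) (y | t') hne
    · exact hG.isys.sep x y fun h => hne (by rw [h])
    · obtain ⟨P, Q, hP, hQ, hPQ, i1, i2⟩ := hold x t'
      exact ⟨Q, P, hQ, hP, hPQ.symm, i2, i1⟩
    · exact hold y t
    · have htt : t.1 ≠ t'.1 := fun h => hne (by rw [Subtype.ext h])
      obtain ⟨x, hx, y, hy, z, hz, w, hw, hxy, hzw, e1, e2, e3, e4⟩ :=
        HubSys_two (h3 t) (h3 t') htt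
      obtain ⟨a1, a2⟩ := hq t x hx y hy hxy
      obtain ⟨b1, b2⟩ := hq t' z hz w hw hzw
      obtain ⟨P, Q, hP, hQ, hPQ, i1, i2, i3, i4⟩ := hG.sep x y z w a1 (Or.inl b1) e1 e2 e3 e4
      exact ⟨P, Q, hP.trans (hsub t x y hx hy), hQ.trans (hsub t' z w hz hw), hPQ,
        inC_of_hull hF i1 i2 a2, inC_of_hull hF i3 i4 b2⟩

open Classical in
theorem hub_bdd {U : Type} [Fintype U] {p : ℕ} {E : U → Finset (Fin p)} {D₁ D₂ M : ℕ}
    (hB : Bdd E D₁ D₂) (T : Finset (Finset U)) (h3 : ∀ t ∈ T, t.card ≤ 3)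
    (hM : ∀ x, (T.filter fun t => x ∈ t).card ≤ M) :
    Bdd (Sum.elim E fun t : {t // t ∈ T} => t.1.biUnion E) (3 * D₁) (D₂ * (M + 1)) := by
  constructor
  · rintro (x | t)
    · exact (hB.1 x).trans (by omega)
    · show (t.1.biUnion E).card ≤ 3 * D₁
      refine Finset.card_biUnion_le.trans ?_
      refine (Finset.sum_le_card_nsmul t.1 _ D₁ fun x _ => hB.1 x).trans ?_
      rw [smul_eq_mul]
      exact Nat.mul_le_mul_right _ (h3 t.1 t.2)
  · intro i
    rw [Finset.card_filter, Fintype.sum_sum_type, ← Finset.card_filter, ← Finset.card_filter]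
    have h1 : (Finset.univ.filter fun x : U =>
        i ∈ Sum.elim E (fun t : {t // t ∈ T} => t.1.biUnion E) (Sum.inl x)).card ≤ D₂ := hB.2 i
    have h2 : (Finset.univ.filter fun t : {t // t ∈ T} =>
        i ∈ Sum.elim E (fun t : {t // t ∈ T} => t.1.biUnion E) (Sum.inr t)).card ≤ D₂ * M := by
      calc _ ≤ ((Finset.univ.filter fun x : U => i ∈ E x).biUnion
              fun x => T.filter fun t => x ∈ t).card := by
            refine Finset.card_le_card_of_injOn (fun t => t.1) ?_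
              (fun s _ t _ h => Subtype.ext h)
            intro t ht
            have ht' : i ∈ t.1.biUnion E := (Finset.mem_filter.1 (Finset.mem_coe.1 ht)).2
            obtain ⟨x, hx, hix⟩ := Finset.mem_biUnion.1 ht'
            exact Finset.mem_coe.2 (Finset.mem_biUnion.2 ⟨x,
              Finset.mem_filter.2 ⟨Finset.mem_univ _, hix⟩, Finset.mem_filter.2 ⟨t.2, hx⟩⟩)
        _ ≤ ∑ x ∈ Finset.univ.filter (fun x : U => i ∈ E x), (T.filter fun t => x ∈ t).card :=
            Finset.card_biUnion_le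
        _ ≤ (Finset.univ.filter fun x : U => i ∈ E x).card • M :=
            Finset.sum_le_card_nsmul _ _ _ fun x _ => hM x
        _ ≤ D₂ * M := by
            rw [smul_eq_mul]
            exact Nat.mul_le_mul_right _ (hB.2 i)
    calc _ ≤ D₂ + D₂ * M := Nat.add_le_add h1 h2
      _ = D₂ * (M + 1) := by ring

end Pool.Agent.FS49
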