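import Pool.Agent.FS49.Bip
import Pool.Agent.FS49.HubSys

/-!
# FS49/Dense: many bad triangles with bounded degrees

`hub_isys`, `hub_bdd`, `bip` with `U ⊕ {t // t ∈ T}` (`Fintype.card_sum`, `Fintype.card_coe`). If `D₁ = 0` then `3 * D₁ = 0` is no problem.
-/

set_option autoImplicit false

namespace Pool.Agent.FS49

open Pool.Agent.HR54 Pool.Agent.RT16

open Classical in
theorem dense_case {V U : Type} [Finite V] [Fintype U] {G : SimpleGraph V} {p : ℕ}
    {𝒞 : Set (Set V)} {a : Fin p → V} (hF : Fam G 𝒞 a) {v : U → V} {E : U → Finset (Fin p)}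
    {H : SimpleGraph U} (hG : Good 𝒞 a v E H) {D₁ D₂ M : ℕ} (hB : Bdd E D₁ D₂)
    (T : Finset (Finset U)) (hT : ∀ t ∈ T, BadTri 𝒞 v H t)
    (hM : ∀ x, (T.filter fun t => x ∈ t).card ≤ M) {q h : ℕ}
    (hq : 2 * q ≤ Fintype.card U + T.card)
    (hh : h + ((3 * D₁ * (D₂ * (M + 1))) ^ 2) ^ 2 + (3 * D₁ * (D₂ * (M + 1))) ^ 2 ≤ q) :
    CliqueMinor G h := by
  obtain ⟨v', hv'⟩ := hub_isys hF hG T hT
  have h3 : ∀ t ∈ T, t.card ≤ 3 := by
    intro t ht
    obtain ⟨x, y, z, rfl, -⟩ := hT t ht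
    exact Finset.card_le_three
  have hb := hub_bdd hB T h3 hM
  exact bip hF hv' hb (by rw [Fintype.card_sum, Fintype.card_coe]; exact hq) hh

end Pool.Agent.FS49
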