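import Pool.Agent.FS49.Base

/-!
# FS49/FarSep: far pairs are separated

`x` can meet (`Meet`) at most one of `z`, `w` (otherwise `z ~ x ~ w`), and conversely. For each end take the set of `ISys.sep` for the unique
end of the other pair which it meets, or `E x` (`ISys.mem`) if it meets none. `Meet E x x` by `ne`. So `P = P x ∪ P y`, `Q = Q z ∪ Q w`.
-/

set_option autoImplicit false

namespace Pool.Agent.FS49

open Pool.Agent.HR54 Pool.Agent.RT16

variable {V : Type} {p : ℕ} {𝒞 : Set (Set V)} {a : Fin p → V} {U : Type} {v : U → V}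
  {E : U → Finset (Fin p)}

theorem Far.symm {x y : U} (h : Far E x y) : Far E y x := by
  intro w h1 h2
  exact h w (fun hd => h2 hd.symm) (fun hd => h1 hd.symm)

theorem FarSep_meet_self (hI : ISys 𝒞 a v E) (x : U) : Meet E x x := by
  intro hd
  obtain ⟨i, hi⟩ := hI.ne x
  exact Finset.disjoint_left.1 hd hi hi

theorem FarSep_meet_symm {x y : U} (h : Meet E x y) : Meet E y x := fun hd => h hd.symm

theorem Far.ne (hI : ISys 𝒞 a v E) {x y : U} (h : Far E x y) : x ≠ y := by
  rintro rfl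
  exact h x (FarSep_meet_self hI x) (FarSep_meet_self hI x)

theorem Far.disj (hI : ISys 𝒞 a v E) {x y : U} (h : Far E x y) : Disjoint (E x) (E y) := by
  by_contra hm
  exact h x (FarSep_meet_self hI x) hm

/-- Sets of index vertices `A`, `B` such that every member of one of them meets at most one member of
the other one. -/
theorem FarSep_choose (hI : ISys 𝒞 a v E) (A B : Set U) (hAB : ∀ e ∈ A, ∀ d ∈ B, e ≠ d)
    (h1 : ∀ e ∈ A, ∀ d ∈ B, ∀ d' ∈ B, Meet E e d → Meet E e d' → d = d')
    (h2 : ∀ d ∈ B, ∀ e ∈ A, ∀ e' ∈ A, Meet E e d → Meet E e' d → e = e') :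
    ∃ P Q : U → Finset (Fin p), (∀ e ∈ A, P e ⊆ E e ∧ InC 𝒞 a (v e) (P e)) ∧
      (∀ d ∈ B, Q d ⊆ E d ∧ InC 𝒞 a (v d) (Q d)) ∧ ∀ e ∈ A, ∀ d ∈ B, Disjoint (P e) (Q d) := by
  classical
  have h3 : ∀ e d, ∃ PQ : Finset (Fin p) × Finset (Fin p), e ≠ d → PQ.1 ⊆ E e ∧ PQ.2 ⊆ E d ∧
      Disjoint PQ.1 PQ.2 ∧ InC 𝒞 a (v e) PQ.1 ∧ InC 𝒞 a (v d) PQ.2 := by
    intro e d
    by_cases hed : e = d
    · exact ⟨(∅, ∅), fun h => absurd hed h⟩
    · obtain ⟨P, Q, g1, g2, g3, g4, g5⟩ := hI.sep e d hed
      exact ⟨(P, Q), fun _ => ⟨g1, g2, g3, g4, g5⟩⟩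
  choose R hR using h3
  refine ⟨fun e => if h : ∃ d, d ∈ B ∧ Meet E e d then (R e h.choose).1 else E e,
    fun d => if h : ∃ e, e ∈ A ∧ Meet E e d then (R h.choose d).2 else E d, ?_, ?_, ?_⟩
  · intro e he
    by_cases h : ∃ d, d ∈ B ∧ Meet E e d
    · have g := hR e h.choose (hAB e he _ h.choose_spec.1)
      simp only [dif_pos h]
      exact ⟨g.1, g.2.2.2.1⟩
    · simp only [dif_neg h]
      exact ⟨le_rfl, hI.mem e⟩
  · intro d hd
    by_cases h : ∃ e, e ∈ A ∧ Meet E e d
    · have g := hR h.choose d (hAB _ h.choose_spec.1 d hd)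
      simp only [dif_pos h]
      exact ⟨g.2.1, g.2.2.2.2⟩
    · simp only [dif_neg h]
      exact ⟨le_rfl, hI.mem d⟩
  · intro e he d hd
    by_cases hm : Meet E e d
    · have h : ∃ d, d ∈ B ∧ Meet E e d := ⟨d, hd, hm⟩
      have h' : ∃ e, e ∈ A ∧ Meet E e d := ⟨e, he, hm⟩
      have e1 : h.choose = d := h1 e he _ h.choose_spec.1 d hd h.choose_spec.2 hm
      have e2 : h'.choose = e := h2 d hd _ h'.choose_spec.1 e he h'.choose_spec.2 hm
      simp only [dif_pos h, dif_pos h', e1, e2]
      exact (hR e d (hAB e he d hd)).2.2.1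
    · have hd' : Disjoint (E e) (E d) := by
        by_contra h
        exact hm h
      apply Finset.disjoint_of_subset_left _ (Finset.disjoint_of_subset_right _ hd')
      · by_cases h : ∃ d, d ∈ B ∧ Meet E e d
        · have g := hR e h.choose (hAB e he _ h.choose_spec.1)
          simp only [dif_pos h]
          exact g.1
        · simp only [dif_neg h]
          exact le_rfl
      · by_cases h : ∃ e, e ∈ A ∧ Meet E e d
        · have g := hR h.choose d (hAB _ h.choose_spec.1 d hd)
          simp only [dif_pos h]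
          exact g.2.1
        · simp only [dif_neg h]
          exact le_rfl

theorem far_sep (hI : ISys 𝒞 a v E) {x y z w : U} (h1 : Far E x y) (h2 : Far E z w ∨ z = w)
    (h3 : x ≠ z) (h4 : x ≠ w) (h5 : y ≠ z) (h6 : y ≠ w) : Sep2 𝒞 a v E x y z w := by
  obtain ⟨P, Q, hP, hQ, hd⟩ := FarSep_choose hI {x, y} {z, w}
    (by
      rintro e (rfl | rfl) d (rfl | rfl)
      · exact h3
      · exact h4
      · exact h5
      · exact h6)
    (by
      have key : ∀ e, Meet E e z → Meet E e w → z = w := by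
        intro e hz hw
        rcases h2 with h2 | h2
        · exact absurd hw (h2 e (FarSep_meet_symm hz))
        · exact h2
      rintro e - d (rfl | rfl) d' (rfl | rfl) hm hm'
      · rfl
      · exact key e hm hm'
      · exact (key e hm' hm).symm
      · rfl)
    (by
      have key : ∀ d, Meet E x d → Meet E y d → False := fun d hx hy =>
        h1 d hx (FarSep_meet_symm hy)
      rintro d - e (rfl | rfl) e' (rfl | rfl) hm hm'
      · rfl
      · exact (key d hm hm').elim
      · exact (key d hm' hm).elim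
      · rfl)
  have hx := hP x (Or.inl rfl)
  have hy := hP y (Or.inr rfl)
  have hz := hQ z (Or.inl rfl)
  have hw := hQ w (Or.inr rfl)
  refine ⟨P x ∪ P y, Q z ∪ Q w, Finset.union_subset_union hx.1 hy.1,
    Finset.union_subset_union hz.1 hw.1, ?_, hx.2.mono Finset.subset_union_left,
    hy.2.mono Finset.subset_union_right, hz.2.mono Finset.subset_union_left,
    hw.2.mono Finset.subset_union_right⟩
  rw [Finset.disjoint_union_left, Finset.disjoint_union_right, Finset.disjoint_union_right]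
  exact ⟨⟨hd x (Or.inl rfl) z (Or.inl rfl), hd x (Or.inl rfl) w (Or.inr rfl)⟩,
    hd y (Or.inr rfl) z (Or.inl rfl), hd y (Or.inr rfl) w (Or.inr rfl)⟩

/-- Any graph all edges of which are far pairs. -/
theorem good_far (hI : ISys 𝒞 a v E) (H : SimpleGraph U) (hH : ∀ x y, H.Adj x y → Far E x y) :
    Good 𝒞 a v E H :=
  ⟨hI, fun x y z w h1 h2 h3 h4 h5 h6 =>
    far_sep hI (hH x y h1) (h2.imp (hH z w) id) h3 h4 h5 h6⟩

end Pool.Agent.FS49
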