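import Pool.Agent.FS49.Base

/-!
# FS49/Step: one more index vertex

`x`, `y`, `z` active, `w` in the three hulls. New index `Fin.last n` with `v = w`, `S = S y ∪ S z`, `u = x` (`Fin.snoc`); new active
set: the old one (castSucc) without `y`, `z`, with the new index. `w ∈ hull {v y, v z}`: `InC w (S y ∪ S z)` (`inC_of_hull`). KEY for
`sep`, `avoid` of the new index against an old one `t`: by `lam` for `y` and `z` either `S t` is disjoint from `S y ∪ S z` (then
`P = S y ∪ S z`), or `S t ⊆ S y`: then `P = S x ∪ S z` (`w ∈ hull {v x, v z}`) is disjoint from `S t` by `adisj`, or `S t ⊆ S z`: then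
`P = S x ∪ S y`; always `Q = S t`. `chain`: for `i ∈ S y` the number grows by one, `≤ (S y).card + 1 ≤ (S y ∪ S z).card` (disjoint, `ne`).
`mult`: only for `x` the number grows. `card`: one more index, one active index less. `cover`: clear.
-/

set_option autoImplicit false

namespace Pool.Agent.FS49

open Pool.Agent.HR54 Pool.Agent.RT16

theorem step_count {n : ℕ} (P : Fin (n + 1) → Prop) [DecidablePred P] :
    (Finset.univ.filter fun t => P t).card =
      (Finset.univ.filter fun t : Fin n => P t.castSucc).card + if P (Fin.last n) then 1 else 0 := by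
  rw [Finset.card_filter, Fin.sum_univ_castSucc, Finset.card_filter]

open Classical in
theorem sys_step {V : Type} [Finite V] {G : SimpleGraph V} {p : ℕ} {𝒞 : Set (Set V)}
    {a : Fin p → V} (hF : Fam G 𝒞 a) {M n : ℕ} (s : Sys 𝒞 a M n) {x y z : Fin n}
    (hx : x ∈ s.A) (hy : y ∈ s.A) (hz : z ∈ s.A) (hxy : x ≠ y) (hxz : x ≠ z) (hyz : y ≠ z)
    (hbad : Bad 𝒞 (s.v x) (s.v y) (s.v z)) (h1 : (s.S y).card + (s.S z).card ≤ M)
    (h2 : (Finset.univ.filter fun t => s.u t = x).card ≤ M) :
    Nonempty (Sys 𝒞 a M (n + 1)) := by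
  obtain ⟨w, ⟨hwxy, hwxz⟩, hwyz⟩ := hbad
  have dxy := s.adisj x hx y hy hxy
  have dxz := s.adisj x hx z hz hxz
  have dyz := s.adisj y hy z hz hyz
  have Iyz : InC 𝒞 a w (s.S y ∪ s.S z) := inC_of_hull hF
    ((s.mem y).mono Finset.subset_union_left) ((s.mem z).mono Finset.subset_union_right) hwyz
  have Ixz : InC 𝒞 a w (s.S x ∪ s.S z) := inC_of_hull hF
    ((s.mem x).mono Finset.subset_union_left) ((s.mem z).mono Finset.subset_union_right) hwxz
  have Ixy : InC 𝒞 a w (s.S x ∪ s.S y) := inC_of_hull hF
    ((s.mem x).mono Finset.subset_union_left) ((s.mem y).mono Finset.subset_union_right) hwxy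
  have key : ∀ t, ∃ P : Finset (Fin p), P ⊆ (s.S y ∪ s.S z) ∪ s.S x ∧ Disjoint P (s.S t) ∧
      InC 𝒞 a w P := by
    intro t
    rcases s.lam y hy t with h3 | h3
    · refine ⟨s.S x ∪ s.S z, ?_, ?_, Ixz⟩
      · intro i hi
        simp only [Finset.mem_union] at hi ⊢
        tauto
      · exact Disjoint.mono_right h3 (Finset.disjoint_union_left.2 ⟨dxy, dyz.symm⟩)
    · rcases s.lam z hz t with h4 | h4
      · refine ⟨s.S x ∪ s.S y, ?_, ?_, Ixy⟩
        · intro i hi
          simp only [Finset.mem_union] at hi ⊢
          tauto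
        · exact Disjoint.mono_right h4 (Finset.disjoint_union_left.2 ⟨dxz, dyz⟩)
      · exact ⟨s.S y ∪ s.S z, Finset.subset_union_left,
          Finset.disjoint_union_left.2 ⟨h3.symm, h4.symm⟩, Iyz⟩
  have dA : ∀ r ∈ s.A, r ≠ y → r ≠ z → Disjoint (s.S y ∪ s.S z) (s.S r) := fun r hr h3 h4 =>
    Finset.disjoint_union_left.2 ⟨(s.adisj r hr y hy h3).symm, (s.adisj r hr z hz h4).symm⟩
  have hyzc : (s.S y ∪ s.S z).card = (s.S y).card + (s.S z).card :=
    Finset.card_union_of_disjoint dyz
  have hy1 : 1 ≤ (s.S y).card := Finset.card_pos.2 (s.ne y)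
  have hz1 : 1 ≤ (s.S z).card := Finset.card_pos.2 (s.ne z)
  obtain ⟨v', hv'⟩ : ∃ v' : Fin (n + 1) → V, v' = Fin.snoc (α := fun _ => V) s.v w := ⟨_, rfl⟩
  obtain ⟨S', hS'⟩ : ∃ S' : Fin (n + 1) → Finset (Fin p),
    S' = Fin.snoc (α := fun _ => Finset (Fin p)) s.S (s.S y ∪ s.S z) := ⟨_, rfl⟩
  obtain ⟨u', hu'⟩ : ∃ u' : Fin (n + 1) → Fin (n + 1),
    u' = Fin.snoc (α := fun _ => Fin (n + 1)) (fun t => (s.u t).castSucc) x.castSucc := ⟨_, rfl⟩
  have v1 : ∀ t : Fin n, v' t.castSucc = s.v t := fun t => by rw [hv', Fin.snoc_castSucc]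
  have v2 : v' (Fin.last n) = w := by rw [hv', Fin.snoc_last]
  have S1 : ∀ t : Fin n, S' t.castSucc = s.S t := fun t => by rw [hS', Fin.snoc_castSucc]
  have S2 : S' (Fin.last n) = s.S y ∪ s.S z := by rw [hS', Fin.snoc_last]
  have u1 : ∀ t : Fin n, u' t.castSucc = (s.u t).castSucc := fun t => by
    rw [hu', Fin.snoc_castSucc]
  have u2 : u' (Fin.last n) = x.castSucc := by rw [hu', Fin.snoc_last]
  obtain ⟨B, hB⟩ : ∃ B : Finset (Fin n), B = (s.A.erase y).erase z := ⟨_, rfl⟩
  have mB : ∀ r, r ∈ B ↔ r ≠ z ∧ r ≠ y ∧ r ∈ s.A := fun r => by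
    rw [hB, Finset.mem_erase, Finset.mem_erase]
  have hBc : B.card + 2 = s.A.card := by
    have h3 : z ∈ s.A.erase y := Finset.mem_erase.2 ⟨hyz.symm, hz⟩
    have h4 := Finset.card_erase_add_one h3
    have h5 := Finset.card_erase_add_one hy
    rw [← hB] at h4
    omega
  obtain ⟨A', hA'⟩ : ∃ A' : Finset (Fin (n + 1)),
    A' = insert (Fin.last n) (B.map Fin.castSuccEmb) := ⟨_, rfl⟩
  have A1 : ∀ t : Fin n, t.castSucc ∈ A' ↔ t ∈ B := by
    intro t
    rw [hA', Finset.mem_insert, Finset.mem_map]
    constructor
    · rintro (h3 | ⟨r, hr, h3⟩)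
      · exact absurd h3 (Fin.castSucc_lt_last t).ne
      · rw [Fin.coe_castSuccEmb] at h3
        rwa [← Fin.castSucc_injective n h3]
    · intro h3
      exact Or.inr ⟨t, h3, rfl⟩
  have A2 : Fin.last n ∈ A' := by rw [hA']; exact Finset.mem_insert_self _ _
  refine ⟨⟨v', S', u', A', ?_, ?_, ?_, ?_, ?_, ?_, ?_, ?_, ?_, ?_, ?_⟩⟩
  · -- mem
    intro t
    induction t using Fin.lastCases with
    | last => rw [v2, S2]; exact Iyz
    | cast t => rw [v1, S1]; exact s.mem t
  · -- ne
    intro t
    induction t using Fin.lastCases with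
    | last => rw [S2]; exact (s.ne y).mono Finset.subset_union_left
    | cast t => rw [S1]; exact s.ne t
  · -- small
    intro t
    induction t using Fin.lastCases with
    | last => rw [S2, hyzc]; exact h1
    | cast t => rw [S1]; exact s.small t
  · -- sep
    intro t r htr
    induction t using Fin.lastCases with
    | last =>
      induction r using Fin.lastCases with
      | last => exact absurd rfl htr
      | cast r =>
        obtain ⟨P, hP1, hP2, hP3⟩ := key r
        refine ⟨P, s.S r, ?_, ?_, hP2, ?_, ?_⟩
        · rw [S2, u2, S1]; exact hP1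
        · rw [S1]; exact Finset.subset_union_left
        · rw [v2]; exact hP3
        · rw [v1]; exact s.mem r
    | cast t =>
      induction r using Fin.lastCases with
      | last =>
        obtain ⟨P, hP1, hP2, hP3⟩ := key t
        refine ⟨s.S t, P, ?_, ?_, hP2.symm, ?_, ?_⟩
        · rw [S1]; exact Finset.subset_union_left
        · rw [S2, u2, S1]; exact hP1
        · rw [v1]; exact s.mem t
        · rw [v2]; exact hP3
      | cast r =>
        obtain ⟨P, Q, h3, h4, h5, h6, h7⟩ := s.sep t r (fun h => htr (by rw [h]))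
        refine ⟨P, Q, ?_, ?_, h5, ?_, ?_⟩
        · rw [S1, u1, S1]; exact h3
        · rw [S1, u1, S1]; exact h4
        · rw [v1]; exact h6
        · rw [v1]; exact h7
  · -- adisj
    intro r hr t ht hrt
    induction r using Fin.lastCases with
    | last =>
      induction t using Fin.lastCases with
      | last => exact absurd rfl hrt
      | cast t =>
        rw [A1, mB] at ht
        rw [S2, S1]
        exact dA t ht.2.2 ht.2.1 ht.1
    | cast r =>
      rw [A1, mB] at hr
      induction t using Fin.lastCases with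
      | last =>
        rw [S2, S1]
        exact (dA r hr.2.2 hr.2.1 hr.1).symm
      | cast t =>
        rw [A1, mB] at ht
        rw [S1, S1]
        exact s.adisj r hr.2.2 t ht.2.2 (fun h => hrt (by rw [h]))
  · -- lam
    intro r hr t
    induction r using Fin.lastCases with
    | last =>
      induction t using Fin.lastCases with
      | last => exact Or.inl (Finset.Subset.refl _)
      | cast t =>
        rw [S1, S2]
        rcases s.lam y hy t with h3 | h3
        · exact Or.inl (h3.trans Finset.subset_union_left)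
        · rcases s.lam z hz t with h4 | h4
          · exact Or.inl (h4.trans Finset.subset_union_right)
          · exact Or.inr (Finset.disjoint_union_right.2 ⟨h3, h4⟩)
    | cast r =>
      rw [A1, mB] at hr
      induction t using Fin.lastCases with
      | last =>
        rw [S1, S2]
        exact Or.inr (dA r hr.2.2 hr.2.1 hr.1)
      | cast t =>
        rw [S1, S1]
        exact s.lam r hr.2.2 t
  · -- avoid
    intro r hr t htr
    induction r using Fin.lastCases with
    | last =>
      induction t using Fin.lastCases with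
      | last => exact absurd rfl htr
      | cast t =>
        right
        obtain ⟨P, hP1, hP2, hP3⟩ := key t
        refine ⟨P, ?_, ?_, ?_⟩
        · rw [S2, u2, S1]; exact hP1
        · rw [S1]; exact hP2
        · rw [v2]; exact hP3
    | cast r =>
      rw [A1, mB] at hr
      induction t using Fin.lastCases with
      | last =>
        left
        rw [S1, S2]
        exact (dA r hr.2.2 hr.2.1 hr.1).symm
      | cast t =>
        rcases s.avoid r hr.2.2 t (fun h => htr (by rw [h])) with h3 | ⟨P, h3, h4, h5⟩
        · left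
          rw [S1, S1]
          exact h3
        · right
          refine ⟨P, ?_, ?_, ?_⟩
          · rw [S1, u1, S1]; exact h3
          · rw [S1]; exact h4
          · rw [v1]; exact h5
  · -- cover
    intro i
    obtain ⟨r, hr, hi⟩ := s.cover i
    by_cases h3 : r = y
    · subst h3
      exact ⟨Fin.last n, A2, by rw [S2]; exact Finset.mem_union_left _ hi⟩
    · by_cases h4 : r = z
      · subst h4
        exact ⟨Fin.last n, A2, by rw [S2]; exact Finset.mem_union_right _ hi⟩
      · exact ⟨r.castSucc, (A1 r).2 ((mB r).2 ⟨h4, h3, hr⟩), by rw [S1]; exact hi⟩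
  · -- chain
    intro r hr i hi
    have hcnt : (Finset.univ.filter fun t => i ∈ S' t).card =
        (Finset.univ.filter fun t => i ∈ s.S t).card +
          if i ∈ s.S y ∪ s.S z then 1 else 0 := by
      rw [step_count (fun t => i ∈ S' t)]
      simp only [S1, S2]
    rw [hcnt]
    induction r using Fin.lastCases with
    | last =>
      rw [S2] at hi ⊢
      rw [if_pos hi, hyzc]
      rcases Finset.mem_union.1 hi with h3 | h3
      · have := s.chain y hy i h3
        omega
      · have := s.chain z hz i h3
        omega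
    | cast r =>
      rw [A1, mB] at hr
      rw [S1] at hi ⊢
      have h3 : i ∉ s.S y ∪ s.S z := fun h4 =>
        (Finset.disjoint_left.1 (dA r hr.2.2 hr.2.1 hr.1)) h4 hi
      rw [if_neg h3, add_zero]
      exact s.chain r hr.2.2 i hi
  · -- mult
    intro t
    have hcnt : (Finset.univ.filter fun r => u' r = t).card =
        (Finset.univ.filter fun r : Fin n => (s.u r).castSucc = t).card +
          if x.castSucc = t then 1 else 0 := by
      rw [step_count (fun r => u' r = t)]
      simp only [u1, u2]
    rw [hcnt]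
    induction t using Fin.lastCases with
    | last =>
      rw [if_neg (Fin.castSucc_lt_last x).ne, Finset.filter_false_of_mem
        (fun r _ => (Fin.castSucc_lt_last (s.u r)).ne), Finset.card_empty]
      omega
    | cast t =>
      simp only [Fin.castSucc_inj]
      by_cases h3 : x = t
      · subst h3
        rw [if_pos rfl]
        omega
      · rw [if_neg h3, add_zero]
        exact s.mult t
  · -- card
    have h3 : A'.card = B.card + 1 := by
      rw [hA', Finset.card_insert_of_notMem, Finset.card_map]
      intro h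
      obtain ⟨r, -, hr⟩ := Finset.mem_map.1 h
      exact (Fin.castSucc_lt_last r).ne hr
    have h4 := s.card
    omega

end Pool.Agent.FS49
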