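import Pool.Agent.FS49.Start
import Pool.Agent.FS49.Step

/-!
# FS49/Final: a maximal system

`n ≤ 2 p` by `card`; take `n` maximal (`sys_start`). If a bad triple `x`, `y`, `z` of different active indices contains no exceptional one,
`2 * card ≤ M` for all three supports and `x` is used at most `M` times: `sys_step` contradicts maximality. `exc_card`: the
active supports are disjoint (`adisj`), so `∑ card ≤ p`; the exceptional actives with `M < 2 card` are at most `2 p / M`; `∑ over r of #{x : u x = r} = n ≤ 2 p`,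
so at most `2 p / (M + 1)` indices are used `M + 1` times. `Sys.le`: `A.card ≤ p` (disjoint nonempty supports).
-/

set_option autoImplicit false

namespace Pool.Agent.FS49

open Pool.Agent.HR54 Pool.Agent.RT16

variable {V : Type} {p : ℕ} {𝒞 : Set (Set V)} {a : Fin p → V} {M n : ℕ}

theorem exists_final [Finite V] {G : SimpleGraph V} (hF : Fam G 𝒞 a) (hM : 1 ≤ M) :
    ∃ (n : ℕ) (s : Sys 𝒞 a M n), ∀ x ∈ s.A, ∀ y ∈ s.A, ∀ z ∈ s.A, x ≠ y → x ≠ z → y ≠ z →
      Bad 𝒞 (s.v x) (s.v y) (s.v z) → s.Exc x ∨ s.Exc y ∨ s.Exc z := by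
  by_contra hcon
  have hstep : ∀ n : ℕ, Nonempty (Sys 𝒞 a M n) → Nonempty (Sys 𝒞 a M (n + 1)) := by
    rintro n ⟨s⟩
    by_contra hno
    apply hcon
    refine ⟨n, s, ?_⟩
    intro x hx y hy z hz hxy hxz hyz hbad
    by_contra hexc
    push Not at hexc
    obtain ⟨e1, e2, e3⟩ := hexc
    unfold Sys.Exc at e1 e2 e3
    push Not at e1 e2 e3
    apply hno
    refine sys_step hF s hx hy hz hxy hxz hyz hbad (by omega) ?_
    have h1 := e1.2
    omega
  have hall : ∀ k : ℕ, Nonempty (Sys 𝒞 a M (p + k)) := by
    intro k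
    induction k with
    | zero => exact sys_start a hM
    | succ k ih => exact hstep _ ih
  obtain ⟨s⟩ := hall (p + 1)
  have h1 := s.card
  omega

theorem final_sum_card (s : Sys 𝒞 a M n) : ∑ r ∈ s.A, (s.S r).card ≤ p := by
  rw [← Finset.card_biUnion (fun r hr t ht hrt => s.adisj r hr t ht hrt)]
  calc (s.A.biUnion s.S).card ≤ (Finset.univ : Finset (Fin p)).card :=
        Finset.card_le_card (Finset.subset_univ _)
    _ = p := by rw [Finset.card_univ, Fintype.card_fin]

open Classical in
theorem exc_card (s : Sys 𝒞 a M n) : M * (s.A.filter fun r => s.Exc r).card ≤ 4 * p := by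
  have h1 : M * (s.A.filter fun r => M < 2 * (s.S r).card).card ≤ 2 * p := by
    have h2 : (s.A.filter fun r => M < 2 * (s.S r).card).card * M ≤
        ∑ r ∈ s.A.filter fun r => M < 2 * (s.S r).card, 2 * (s.S r).card := by
      rw [← smul_eq_mul]
      apply Finset.card_nsmul_le_sum
      intro r hr
      exact (Finset.mem_filter.1 hr).2.le
    have h3 : ∑ r ∈ s.A.filter fun r => M < 2 * (s.S r).card, 2 * (s.S r).card ≤
        ∑ r ∈ s.A, 2 * (s.S r).card :=
      Finset.sum_le_sum_of_subset (Finset.filter_subset _ _)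
    have h3' : ∑ r ∈ s.A, 2 * (s.S r).card = 2 * ∑ r ∈ s.A, (s.S r).card :=
      (Finset.mul_sum _ _ _).symm
    have h4 := final_sum_card s
    rw [mul_comm] at h2
    omega
  have h5 : M * (s.A.filter fun r =>
      M + 1 ≤ (Finset.univ.filter fun x => s.u x = r).card).card ≤ 2 * p := by
    have h2 : (s.A.filter fun r =>
        M + 1 ≤ (Finset.univ.filter fun x => s.u x = r).card).card * M ≤
        ∑ r ∈ s.A.filter fun r => M + 1 ≤ (Finset.univ.filter fun x => s.u x = r).card,
          (Finset.univ.filter fun x => s.u x = r).card := by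
      rw [← smul_eq_mul]
      apply Finset.card_nsmul_le_sum
      intro r hr
      have h := (Finset.mem_filter.1 hr).2
      omega
    have h3 : ∑ r ∈ s.A.filter fun r => M + 1 ≤ (Finset.univ.filter fun x => s.u x = r).card,
        (Finset.univ.filter fun x => s.u x = r).card ≤
        ∑ r : Fin n, (Finset.univ.filter fun x => s.u x = r).card :=
      Finset.sum_le_sum_of_subset (Finset.subset_univ _)
    have h4 : ∑ r : Fin n, (Finset.univ.filter fun x => s.u x = r).card = n := by
      rw [← Finset.card_eq_sum_card_fiberwise (s := Finset.univ) (t := Finset.univ) (f := s.u)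
        (fun x _ => Finset.mem_univ _), Finset.card_univ, Fintype.card_fin]
    have h6 := s.card
    rw [mul_comm] at h2
    omega
  have h7 : (s.A.filter fun r => s.Exc r).card ≤
      (s.A.filter fun r => M < 2 * (s.S r).card).card + (s.A.filter fun r =>
      M + 1 ≤ (Finset.univ.filter fun x => s.u x = r).card).card := by
    refine le_trans (Finset.card_le_card ?_) (Finset.card_union_le _ _)
    intro r hr
    obtain ⟨hr1, hr2⟩ := Finset.mem_filter.1 hr
    rcases hr2 with h | h
    · exact Finset.mem_union_left _ (Finset.mem_filter.2 ⟨hr1, h⟩)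
    · exact Finset.mem_union_right _ (Finset.mem_filter.2 ⟨hr1, h⟩)
  have h8 := Nat.mul_le_mul_left M h7
  rw [Nat.mul_add] at h8
  omega

theorem Sys.le (s : Sys 𝒞 a M n) : p ≤ n := by
  have h1 := final_sum_card s
  have h2 : s.A.card * 1 ≤ ∑ r ∈ s.A, (s.S r).card := by
    rw [← smul_eq_mul]
    apply Finset.card_nsmul_le_sum
    intro r _
    exact Finset.card_pos.2 (s.ne r)
  have h3 := s.card
  omega

end Pool.Agent.FS49
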