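import Pool.Agent.FS49.FarSep

/-!
# FS49/GoodS: the graph of a system is good

`isys`: `ne`, `mem` (`InC.mono`), `Sys.sep`. `sep`, far against far (or a vertex): `far_sep`. Active pair `x y` against active pair `z w` (or
`z = w` active): the supports, `adisj`. Active pair `x y` against far `z w` (or `z = w` anything): `Q = S z ∪ S w`; for each end `r ∈ {x, y}` of the active
pair: if `S r` is disjoint from `S z` and `S w` take `S r`. Otherwise say `S r` meets `S z`: `avoid` gives `P ⊆ E r` disjoint from `S z`,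
`InC (v r) P`; `Meet E z r`, so `Far E z w` gives `¬ Meet E r w`, so `P` is disjoint from `S w ⊆ E w`. Far against an active pair: the same, `P` and `Q` exchanged.
`bdd_sys`: `card (E x) ≤ 2 M`; `i ∈ S x` for at most `M` indices (`cover`, `chain`, `small`); `i ∈ S (u x)`: `M` values of `u x`, each at most
`M + 1` times (`mult`): together `M + M (M + 1)`.
-/

set_option autoImplicit false

namespace Pool.Agent.FS49

open Pool.Agent.HR54 Pool.Agent.RT16

variable {V : Type} {p : ℕ} {𝒞 : Set (Set V)} {a : Fin p → V} {M n : ℕ}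

theorem isys_sys (s : Sys 𝒞 a M n) : ISys 𝒞 a s.v s.E where
  ne x := (s.ne x).mono Finset.subset_union_left
  mem x := (s.mem x).mono Finset.subset_union_left
  sep x y hxy := s.sep x y hxy

theorem Sep2.symm {U : Type} {v : U → V} {E : U → Finset (Fin p)} {x y z w : U}
    (h : Sep2 𝒞 a v E x y z w) : Sep2 𝒞 a v E z w x y := by
  obtain ⟨P, Q, h1, h2, h3, h4, h5, h6, h7⟩ := h
  exact ⟨Q, P, h2, h1, h3.symm, h6, h7, h4, h5⟩

/-- An active index avoids the supports of the ends of a far pair. -/
theorem act_avoid (s : Sys 𝒞 a M n) {r z w : Fin n} (hr : r ∈ s.A) (hz : r ≠ z) (hw : r ≠ w)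
    (h : Far s.E z w ∨ z = w) :
    ∃ P : Finset (Fin p), P ⊆ s.E r ∧ Disjoint P (s.S z ∪ s.S w) ∧ InC 𝒞 a (s.v r) P := by
  by_cases h1 : Disjoint (s.S r) (s.S z)
  · by_cases h2 : Disjoint (s.S r) (s.S w)
    · exact ⟨s.S r, Finset.subset_union_left, Finset.disjoint_union_right.2 ⟨h1, h2⟩, s.mem r⟩
    · rcases s.avoid r hr w (Ne.symm hw) with h3 | ⟨P, hP, hPd, hPi⟩
      · exact absurd h3 h2
      · refine ⟨P, hP, Finset.disjoint_union_right.2 ⟨?_, hPd⟩, hPi⟩
        rcases h with h | h
        · by_contra h4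
          refine h r (fun h5 => h4 ?_) (fun h5 => h2 ?_)
          · exact (h5.mono Finset.subset_union_left hP).symm
          · exact h5.mono Finset.subset_union_left Finset.subset_union_left
        · rw [h]
          exact hPd
  · rcases s.avoid r hr z (Ne.symm hz) with h3 | ⟨P, hP, hPd, hPi⟩
    · exact absurd h3 h1
    · refine ⟨P, hP, Finset.disjoint_union_right.2 ⟨hPd, ?_⟩, hPi⟩
      rcases h with h | h
      · by_contra h4
        refine h r (fun h5 => h1 ?_) (fun h5 => h4 ?_)
        · exact (h5.mono Finset.subset_union_left Finset.subset_union_left).symm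
        · exact h5.mono hP Finset.subset_union_left
      · rw [← h]
        exact hPd

/-- An active pair against a far pair (or a vertex). -/
theorem act_far (s : Sys 𝒞 a M n) {x y z w : Fin n} (hx : x ∈ s.A) (hy : y ∈ s.A)
    (h : Far s.E z w ∨ z = w) (h3 : x ≠ z) (h4 : x ≠ w) (h5 : y ≠ z) (h6 : y ≠ w) :
    Sep2 𝒞 a s.v s.E x y z w := by
  obtain ⟨P, hP, hPd, hPi⟩ := act_avoid s hx h3 h4 h
  obtain ⟨P', hP', hPd', hPi'⟩ := act_avoid s hy h5 h6 h
  exact ⟨P ∪ P', s.S z ∪ s.S w, Finset.union_subset_union hP hP',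
    Finset.union_subset_union Finset.subset_union_left Finset.subset_union_left,
    Finset.disjoint_union_left.2 ⟨hPd, hPd'⟩, hPi.mono Finset.subset_union_left,
    hPi'.mono Finset.subset_union_right, (s.mem z).mono Finset.subset_union_left,
    (s.mem w).mono Finset.subset_union_right⟩

theorem good_sys (s : Sys 𝒞 a M n) : Good 𝒞 a s.v s.E s.H := by
  refine ⟨isys_sys s, fun x y z w hxy hzw h3 h4 h5 h6 => ?_⟩
  obtain ⟨-, hxy | ⟨hx, hy⟩⟩ := hxy
  · rcases hzw with ⟨-, hzw | ⟨hz, hw⟩⟩ | hzw
    · exact far_sep (isys_sys s) hxy (Or.inl hzw) h3 h4 h5 h6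
    · exact (act_far s hz hw (Or.inl hxy) h3.symm h5.symm h4.symm h6.symm).symm
    · exact far_sep (isys_sys s) hxy (Or.inr hzw) h3 h4 h5 h6
  · rcases hzw with ⟨-, hzw | ⟨hz, hw⟩⟩ | hzw
    · exact act_far s hx hy (Or.inl hzw) h3 h4 h5 h6
    · refine ⟨s.S x ∪ s.S y, s.S z ∪ s.S w,
        Finset.union_subset_union Finset.subset_union_left Finset.subset_union_left,
        Finset.union_subset_union Finset.subset_union_left Finset.subset_union_left,
        ?_, (s.mem x).mono Finset.subset_union_left, (s.mem y).mono Finset.subset_union_right,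
        (s.mem z).mono Finset.subset_union_left, (s.mem w).mono Finset.subset_union_right⟩
      rw [Finset.disjoint_union_left, Finset.disjoint_union_right, Finset.disjoint_union_right]
      exact ⟨⟨s.adisj x hx z hz h3, s.adisj x hx w hw h4⟩,
        ⟨s.adisj y hy z hz h5, s.adisj y hy w hw h6⟩⟩
    · exact act_far s hx hy (Or.inr hzw) h3 h4 h5 h6

open Classical in
theorem supp_few (s : Sys 𝒞 a M n) (i : Fin p) :
    (Finset.univ.filter fun x => i ∈ s.S x).card ≤ M := by
  obtain ⟨r, hr, hi⟩ := s.cover i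
  exact (s.chain r hr i hi).trans (s.small r)

theorem bdd_sys (s : Sys 𝒞 a M n) : Bdd s.E (2 * M) (M * (M + 2)) := by
  classical
  refine ⟨fun x => ?_, fun i => ?_⟩
  · have h1 := s.small x
    have h2 := s.small (s.u x)
    have h3 : (s.E x).card ≤ (s.S x).card + (s.S (s.u x)).card := Finset.card_union_le _ _
    omega
  · have h1 : (Finset.univ.filter fun x => i ∈ s.E x) ⊆
        (Finset.univ.filter fun x => i ∈ s.S x) ∪
          (Finset.univ.filter fun x => i ∈ s.S x).biUnion
            (fun y => Finset.univ.filter fun x => s.u x = y) := by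
      intro x hx
      have hx2 := (Finset.mem_filter.1 hx).2
      rw [Finset.mem_union, Finset.mem_biUnion]
      rcases Finset.mem_union.1 hx2 with h | h
      · exact Or.inl (Finset.mem_filter.2 ⟨Finset.mem_univ _, h⟩)
      · exact Or.inr ⟨s.u x, Finset.mem_filter.2 ⟨Finset.mem_univ _, h⟩,
          Finset.mem_filter.2 ⟨Finset.mem_univ _, rfl⟩⟩
    have h2 := supp_few s i
    have h3 : ((Finset.univ.filter fun x => i ∈ s.S x).biUnion
            (fun y => Finset.univ.filter fun x => s.u x = y)).card ≤ M * (M + 1) := by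
      refine Finset.card_biUnion_le.trans ?_
      refine (Finset.sum_le_card_nsmul _ _ (M + 1) fun y _ => s.mult y).trans ?_
      rw [smul_eq_mul]
      exact Nat.mul_le_mul_right _ h2
    have h4 := (Finset.card_le_card h1).trans (Finset.card_union_le _ _)
    have h5 : M + M * (M + 1) = M * (M + 2) := by ring
    omega

end Pool.Agent.FS49
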