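import Mathlib

/-!
# FS49/MaxSub: maximal subfamily with bounded degrees

Take `T ⊆ Y` with all degrees `≤ M` and `T.card` maximal (`T = ∅` is one). If `t ∈ Y`, `t ∉ T`, then `insert t T` has a degree `> M`, at some
`x ∈ t` (the other degrees do not change), so the degree of `x` in `T` is `M`. `sat_card`: double counting of `{(x, t) : x ∈ t ∈ T}`.
-/

set_option autoImplicit false

namespace Pool.Agent.FS49

open Classical in
theorem max_sub {U : Type} [Fintype U] (Y : Finset (Finset U)) (M : ℕ) :
    ∃ T ⊆ Y, (∀ x, (T.filter fun t => x ∈ t).card ≤ M) ∧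
      ∀ t ∈ Y, t ∉ T → ∃ x ∈ t, (T.filter fun t' => x ∈ t').card = M := by
  have hne : (Y.powerset.filter fun T => ∀ x : U, (T.filter fun t => x ∈ t).card ≤ M).Nonempty := by
    refine ⟨∅, ?_⟩
    rw [Finset.mem_filter, Finset.mem_powerset]
    refine ⟨Finset.empty_subset _, fun x => ?_⟩
    rw [Finset.filter_empty, Finset.card_empty]
    exact Nat.zero_le _
  obtain ⟨T, hT, hmax⟩ := Finset.exists_max_image _ (fun T => T.card) hne
  rw [Finset.mem_filter, Finset.mem_powerset] at hT
  refine ⟨T, hT.1, hT.2, fun t ht htT => ?_⟩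
  by_contra hcon
  push Not at hcon
  have hins : insert t T ∈
      (Y.powerset.filter fun T => ∀ x : U, (T.filter fun t => x ∈ t).card ≤ M) := by
    rw [Finset.mem_filter, Finset.mem_powerset]
    refine ⟨Finset.insert_subset ht hT.1, fun x => ?_⟩
    rw [Finset.filter_insert]
    split_ifs with hx
    · have h1 := hcon x hx
      have h2 := hT.2 x
      refine (Finset.card_insert_le _ _).trans ?_
      omega
    · exact hT.2 x
  have h3 := hmax _ hins
  rw [Finset.card_insert_of_notMem htT] at h3
  omega

open Classical in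
theorem sat_card {U : Type} [Fintype U] (T : Finset (Finset U)) (h3 : ∀ t ∈ T, t.card ≤ 3)
    (M : ℕ) :
    M * (Finset.univ.filter fun x => (T.filter fun t => x ∈ t).card = M).card ≤ 3 * T.card := by
  have h1 : ∑ x : U, (T.filter fun t => x ∈ t).card = ∑ t ∈ T, t.card := by
    have h := Finset.sum_card_bipartiteAbove_eq_sum_card_bipartiteBelow
      (s := (Finset.univ : Finset U)) (t := T) (fun x t => x ∈ t)
    simp only [Finset.bipartiteAbove, Finset.bipartiteBelow] at h
    rw [h]
    refine Finset.sum_congr rfl fun t _ => ?_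
    congr 1
    ext x
    simp
  have h2 : M * (Finset.univ.filter fun x => (T.filter fun t => x ∈ t).card = M).card ≤
      ∑ x : U, (T.filter fun t => x ∈ t).card := by
    calc M * (Finset.univ.filter fun x : U => (T.filter fun t => x ∈ t).card = M).card
        = ∑ x ∈ (Finset.univ.filter fun x : U => (T.filter fun t => x ∈ t).card = M), M := by
          rw [Finset.sum_const, smul_eq_mul, mul_comm]
      _ = ∑ x ∈ (Finset.univ.filter fun x : U => (T.filter fun t => x ∈ t).card = M),
            (T.filter fun t => x ∈ t).card := by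
          refine Finset.sum_congr rfl fun x hx => ?_
          exact ((Finset.mem_filter.1 hx).2).symm
      _ ≤ ∑ x : U, (T.filter fun t => x ∈ t).card :=
          Finset.sum_le_sum_of_subset (Finset.filter_subset _ _)
  rw [h1] at h2
  refine h2.trans ?_
  calc ∑ t ∈ T, t.card ≤ ∑ t ∈ T, 3 := Finset.sum_le_sum h3
    _ = 3 * T.card := by rw [Finset.sum_const, smul_eq_mul, mul_comm]

end Pool.Agent.FS49
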