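import Pool.Agent.FS49.WebG
import Pool.Agent.FS49.Pairing
import Pool.Agent.RT16.Pair

/-!
# FS49/SparseS: few bad triangles, proof
-/

set_option autoImplicit false

namespace Pool.Agent.FS49

open Pool.Agent.HR54 Pool.Agent.RT16

/-- the reduced graph -/
def Hs {U : Type} (H : SimpleGraph U) (A W : Finset U) (T : Finset (Finset U)) :
    SimpleGraph U where
  Adj x y := H.Adj x y ∧ x ∈ W ∧ y ∈ W ∧ ((x ∈ A ∧ y ∈ A) ∨ ∀ t ∈ T, ¬ (x ∈ t ∧ y ∈ t))
  symm := ⟨by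
    rintro x y ⟨h1, h2, h3, h4⟩
    refine ⟨h1.symm, h3, h2, ?_⟩
    rcases h4 with h4 | h4
    · exact Or.inl ⟨h4.2, h4.1⟩
    · exact Or.inr fun t ht h => h4 t ht ⟨h.2, h.1⟩⟩
  loopless := ⟨fun x h => h.1.ne rfl⟩

theorem Good.antiS {V U : Type} {p : ℕ} {𝒞 : Set (Set V)} {a : Fin p → V} {v : U → V}
    {E : U → Finset (Fin p)} {H H' : SimpleGraph U} (hG : Good 𝒞 a v E H)
    (h : ∀ x y, H'.Adj x y → H.Adj x y) : Good 𝒞 a v E H' :=
  ⟨hG.isys, fun x y z w h1 h2 h3 h4 h5 h6 =>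
    hG.sep x y z w (h x y h1) (h2.imp (h z w) id) h3 h4 h5 h6⟩

open Classical in
theorem sparse_count {U : Type} [Fintype U] {H : SimpleGraph U} (A W : Finset U)
    {D M : ℕ} (hD : ∀ x, (Finset.univ.filter fun y => ¬ H.Adj x y).card ≤ D)
    (T : Finset (Finset U)) (h3 : ∀ t ∈ T, t.card ≤ 3)
    (hM : ∀ x, (T.filter fun t => x ∈ t).card ≤ M) (x : U) (hx : x ∈ W) (S : Finset U)
    (hS : S ⊆ W) :
    (S.filter fun y => ¬ (Hs H A W T).Adj x y).card ≤ D + 3 * M := by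
  have hsub : (S.filter fun y => ¬ (Hs H A W T).Adj x y) ⊆
      (Finset.univ.filter fun y => ¬ H.Adj x y) ∪ (T.filter fun t => x ∈ t).biUnion id := by
    intro y hy
    rw [Finset.mem_filter] at hy
    rw [Finset.mem_union, Finset.mem_filter, Finset.mem_biUnion]
    by_cases hH : H.Adj x y
    · right
      by_contra hcon
      apply hy.2
      refine ⟨hH, hx, hS hy.1, Or.inr ?_⟩
      intro t ht hxy
      exact hcon ⟨t, Finset.mem_filter.2 ⟨ht, hxy.1⟩, hxy.2⟩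
    · exact Or.inl ⟨Finset.mem_univ _, hH⟩
  refine (Finset.card_le_card hsub).trans ((Finset.card_union_le _ _).trans ?_)
  refine Nat.add_le_add (hD x) (Finset.card_biUnion_le.trans ?_)
  refine (Finset.sum_le_card_nsmul _ _ 3 ?_).trans ?_
  · intro t ht
    exact h3 t (Finset.mem_filter.1 ht).1
  · rw [smul_eq_mul, mul_comm]
    exact Nat.mul_le_mul_left 3 (hM x)

open Classical in
theorem sparse_N {U : Type} [Fintype U] {H : SimpleGraph U} (A W : Finset U)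
    {D M : ℕ} (hD : ∀ x, (Finset.univ.filter fun y => ¬ H.Adj x y).card ≤ D)
    (T : Finset (Finset U)) (h3 : ∀ t ∈ T, t.card ≤ 3)
    (hM : ∀ x, (T.filter fun t => x ∈ t).card ≤ M) (x : U) (hx : x ∈ W \ A)
    (N : U → U → Prop) (hN : ∀ x y, N x y → ∃ w ∈ W, ¬ (Hs H A W T).Adj x w ∧
      ¬ (Hs H A W T).Adj w y) :
    ((W \ A).filter fun y => N x y).card ≤ (D + 3 * M) ^ 2 := by
  rw [Finset.mem_sdiff] at hx
  have hsub : ((W \ A).filter fun y => N x y) ⊆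
      (W.filter fun w => ¬ (Hs H A W T).Adj x w).biUnion fun w =>
        (W \ A).filter fun y => ¬ (Hs H A W T).Adj w y := by
    intro y hy
    rw [Finset.mem_filter] at hy
    obtain ⟨hyR, hy⟩ := hy
    obtain ⟨w, hw, h1, h2⟩ := hN x y hy
    rw [Finset.mem_biUnion]
    exact ⟨w, Finset.mem_filter.2 ⟨hw, h1⟩, Finset.mem_filter.2 ⟨hyR, h2⟩⟩
  refine (Finset.card_le_card hsub).trans (Finset.card_biUnion_le.trans ?_)
  refine (Finset.sum_le_card_nsmul _ _ (D + 3 * M) ?_).trans ?_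
  · intro w hw
    exact sparse_count A W hD T h3 hM w (Finset.mem_filter.1 hw).1 (W \ A) Finset.sdiff_subset
  · rw [smul_eq_mul, sq]
    exact Nat.mul_le_mul_right _
      (sparse_count A W hD T h3 hM x hx.1 W (Finset.Subset.refl W))

open Classical in
theorem sparse_caseS {V U : Type} [Finite V] [Fintype U] {G : SimpleGraph V} {p : ℕ}
    {𝒞 : Set (Set V)} {a : Fin p → V} (hF : Fam G 𝒞 a) {v : U → V} {E : U → Finset (Fin p)}
    {H : SimpleGraph U} (hG : Good 𝒞 a v E H) (A W : Finset U)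
    (hA : ∀ x ∈ A, ∀ y ∈ A, x ≠ y → H.Adj x y)
    (hA' : ∀ x ∈ A ∩ W, ∀ y ∈ A ∩ W, ∀ z ∈ A ∩ W, x ≠ y → x ≠ z → y ≠ z →
      ¬ Bad 𝒞 (v x) (v y) (v z)) {D M : ℕ}
    (hD : ∀ x, (Finset.univ.filter fun y => ¬ H.Adj x y).card ≤ D)
    (T : Finset (Finset U)) (h3 : ∀ t ∈ T, t.card ≤ 3)
    (hM : ∀ x, (T.filter fun t => x ∈ t).card ≤ M)
    (hW : ∀ x ∈ W, ∀ y ∈ W, ∀ z ∈ W, H.Adj x y → H.Adj x z → H.Adj y z →
      Bad 𝒞 (v x) (v y) (v z) → ¬ (x ∈ A ∧ y ∈ A ∧ z ∈ A) → ({x, y, z} : Finset U) ∈ T)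
    {h : ℕ} (hh : 2 * h + (D + 3 * M) ^ 2 + 1 ≤ 2 * (A ∩ W).card + (W \ A).card) :
    CliqueMinor G h := by
  have hG' : Good 𝒞 a v E (Hs H A W T) := hG.antiS fun x y hxy => hxy.1
  have ht : ∀ x y z, (Hs H A W T).Adj x y → (Hs H A W T).Adj x z → (Hs H A W T).Adj y z →
      ¬ Bad 𝒞 (v x) (v y) (v z) := by
    intro x y z hxy hxz hyz hb
    by_cases hall : x ∈ A ∧ y ∈ A ∧ z ∈ A
    · exact hA' x (Finset.mem_inter.2 ⟨hall.1, hxy.2.1⟩) y
        (Finset.mem_inter.2 ⟨hall.2.1, hxy.2.2.1⟩) z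
        (Finset.mem_inter.2 ⟨hall.2.2, hxz.2.2.1⟩) hxy.1.ne hxz.1.ne hyz.1.ne hb
    · have hmem := hW x hxy.2.1 y hxy.2.2.1 z hxz.2.2.1 hxy.1 hxz.1 hyz.1 hb hall
      have mx : x ∈ ({x, y, z} : Finset U) := Finset.mem_insert_self _ _
      have my : y ∈ ({x, y, z} : Finset U) :=
        Finset.mem_insert_of_mem (Finset.mem_insert_self _ _)
      have mz : z ∈ ({x, y, z} : Finset U) :=
        Finset.mem_insert_of_mem (Finset.mem_insert_of_mem (Finset.mem_singleton_self _))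
      have axy : x ∈ A ∧ y ∈ A := hxy.2.2.2.resolve_right fun h' => h' _ hmem ⟨mx, my⟩
      have axz : x ∈ A ∧ z ∈ A := hxz.2.2.2.resolve_right fun h' => h' _ hmem ⟨mx, mz⟩
      exact hall ⟨axy.1, axy.2, axz.2⟩
  obtain ⟨B, hB1, hB2, hB3⟩ := minor_of_good hF hG' ht
  -- the pairs
  obtain ⟨k, f, g, hf, hg, hfg, hfR, hgR, hN, hk⟩ : ∃ (k : ℕ) (f g : Fin k → U),
      Function.Injective f ∧ Function.Injective g ∧ (∀ i j, f i ≠ g j) ∧
      (∀ i, f i ∈ W \ A) ∧ (∀ i, g i ∈ W \ A) ∧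
      (∀ i, ¬ ∃ w ∈ W, ¬ (Hs H A W T).Adj (f i) w ∧ ¬ (Hs H A W T).Adj w (g i)) ∧
      h ≤ (A ∩ W).card + k := by
    by_cases hc : (D + 3 * M) ^ 2 ≤ (W \ A).card
    · obtain ⟨f, g, h1, h2, h4, h5, h6, h7⟩ := pair_sparse (W \ A)
        (fun x y => ∃ w ∈ W, ¬ (Hs H A W T).Adj x w ∧ ¬ (Hs H A W T).Adj w y)
        (D := (D + 3 * M) ^ 2) (k := ((W \ A).card - (D + 3 * M) ^ 2) / 2)
        (fun x hx => sparse_N A W hD T h3 hM x hx _ fun _ _ h' => h') (by omega)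
      exact ⟨_, f, g, h1, h2, h4, h5, h6, h7, by omega⟩
    · exact ⟨0, fun i => i.elim0, fun i => i.elim0, fun i => i.elim0, fun i => i.elim0,
        fun i => i.elim0, fun i => i.elim0, fun i => i.elim0, fun i => i.elim0, by omega⟩
  have hN' : ∀ i, ∀ w ∈ W, (Hs H A W T).Adj (f i) w ∨ (Hs H A W T).Adj w (g i) := by
    intro i w hw
    by_contra hcon
    rw [not_or] at hcon
    exact hN i ⟨w, hw, hcon⟩
  have hfW : ∀ i, f i ∈ W := fun i => (Finset.mem_sdiff.1 (hfR i)).1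
  have hfA : ∀ i, f i ∉ A := fun i => (Finset.mem_sdiff.1 (hfR i)).2
  have hgA : ∀ i, g i ∉ A := fun i => (Finset.mem_sdiff.1 (hgR i)).2
  refine clique_of_pairs (ι := {x // x ∈ A ∩ W} ⊕ Fin k) (H := Hs H A W T) hB1 hB2 hB3
    (Sum.elim (fun x => x.1) f) (Sum.elim (fun x => x.1) g) ?_ ?_ ?_ ?_
  · rintro (x | i)
    · exact Or.inl rfl
    · right
      rcases hN' i (f i) (hfW i) with h' | h'
      · exact absurd rfl h'.ne
      · exact h'
  · rintro (x | i) (y | j) hij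
    · have hne : x.1 ≠ y.1 := fun h' => hij (congrArg Sum.inl (Subtype.ext h'))
      exact ⟨hne, hne, hne⟩
    · have hxA : x.1 ∈ A := (Finset.mem_inter.1 x.2).1
      exact ⟨fun h' => hfA j ((show x.1 = f j from h') ▸ hxA),
        fun h' => hgA j ((show x.1 = g j from h') ▸ hxA),
        fun h' => hgA j ((show x.1 = g j from h') ▸ hxA)⟩
    · have hyA : y.1 ∈ A := (Finset.mem_inter.1 y.2).1
      exact ⟨fun h' => hfA i ((show f i = y.1 from h') ▸ hyA),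
        fun h' => hgA i ((show g i = y.1 from h') ▸ hyA),
        fun h' => hfA i ((show f i = y.1 from h') ▸ hyA)⟩
    · have hne : i ≠ j := fun h' => hij (congrArg Sum.inr h')
      exact ⟨fun h' => hne (hf h'), fun h' => hne (hg h'), hfg i j⟩
  · rintro (x | i) (y | j) hij
    · have hne : x.1 ≠ y.1 := fun h' => hij (congrArg Sum.inl (Subtype.ext h'))
      have hx := Finset.mem_inter.1 x.2
      have hy := Finset.mem_inter.1 y.2
      exact Or.inl ⟨hA _ hx.1 _ hy.1 hne, hx.2, hy.2, Or.inl ⟨hx.1, hy.1⟩⟩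
    · have hx := Finset.mem_inter.1 x.2
      rcases hN' j x.1 hx.2 with h' | h'
      · exact Or.inl h'.symm
      · exact Or.inr (Or.inl h')
    · have hy := Finset.mem_inter.1 y.2
      rcases hN' i y.1 hy.2 with h' | h'
      · exact Or.inl h'
      · exact Or.inr (Or.inr h')
    · rcases hN' i (f j) (hfW j) with h' | h'
      · exact Or.inl h'
      · exact Or.inr (Or.inr h')
  · rw [Fintype.card_sum, Fintype.card_coe, Fintype.card_fin]
    exact hk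

end Pool.Agent.FS49
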