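import Pool.Agent.FS49.WebG
import Pool.Agent.FS49.Pairing
import Pool.Agent.RT16.Pair
import Pool.Agent.FS49.SparseS

/-!
# FS49/Sparse: few bad triangles

`H' x y`: `H.Adj x y`, `x, y ∈ W`, and (both in `A` or no `t ∈ T` contains both `x` and `y`). No bad triangle: a bad triangle `x y z` of `H'`
is by `hW` in `T`, so all its pairs are in `A`, against `hA'`. Every `x` has at most `D' = D + 3 M` vertices `y` with
`¬ H'.Adj x y`, `y ∈ W`, if `x ∈ W \ A`, and at most `D'` vertices `y ∈ W \ A` with `¬ H'.Adj x y` if `x ∈ W`. `pair_sparse` with `R = W \ A`,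
`N y y' = ∃ w ∈ W, ¬ H'.Adj y w ∧ ¬ H'.Adj w y'` (contains `y = y'` and `¬ H'.Adj y y'`: `w = y`), bound `D' * D'`, `k = (R.card - D' ^ 2) / 2`. `clique_of_pairs` with
`ι = {x // x ∈ W ∩ A} ⊕ Fin k`, singles twice.
-/

set_option autoImplicit false

namespace Pool.Agent.FS49

open Pool.Agent.HR54 Pool.Agent.RT16

/-- A subgraph of a good graph is good. -/
theorem Good.anti {V U : Type} {p : ℕ} {𝒞 : Set (Set V)} {a : Fin p → V} {v : U → V}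
    {E : U → Finset (Fin p)} {H H' : SimpleGraph U} (hG : Good 𝒞 a v E H)
    (h : ∀ x y, H'.Adj x y → H.Adj x y) : Good 𝒞 a v E H' :=
  ⟨hG.isys, fun x y z w h1 h2 h3 h4 h5 h6 =>
    hG.sep x y z w (h x y h1) (h2.imp (h z w) id) h3 h4 h5 h6⟩

open Classical in
theorem sparse_case {V U : Type} [Finite V] [Fintype U] {G : SimpleGraph V} {p : ℕ}
    {𝒞 : Set (Set V)} {a : Fin p → V} (hF : Fam G 𝒞 a) {v : U → V} {E : U → Finset (Fin p)}
    {H : SimpleGraph U} (hG : Good 𝒞 a v E H) (A W : Finset U)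
    (hA : ∀ x ∈ A, ∀ y ∈ A, x ≠ y → H.Adj x y)
    (hA' : ∀ x ∈ A ∩ W, ∀ y ∈ A ∩ W, ∀ z ∈ A ∩ W, x ≠ y → x ≠ z → y ≠ z →
      ¬ Bad 𝒞 (v x) (v y) (v z)) {D M : ℕ}
    (hD : ∀ x, (Finset.univ.filter fun y => ¬ H.Adj x y).card ≤ D)
    (T : Finset (Finset U)) (h3 : ∀ t ∈ T, t.card ≤ 3)
    (hM : ∀ x, (T.filter fun t => x ∈ t).card ≤ M)
    (hW : ∀ x ∈ W, ∀ y ∈ W, ∀ z ∈ W, H.Adj x y → H.Adj x z → H.Adj y z →
      Bad 𝒞 (v x) (v y) (v z) → ¬ (x ∈ A ∧ y ∈ A ∧ z ∈ A) → ({x, y, z} : Finset U) ∈ T)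
    {h : ℕ} (hh : 2 * h + (D + 3 * M) ^ 2 + 1 ≤ 2 * (A ∩ W).card + (W \ A).card) :
    CliqueMinor G h :=
  sparse_caseS hF hG A W hA hA' hD T h3 hM hW hh

end Pool.Agent.FS49
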