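import Pool.Agent.FS49.Final
import Pool.Agent.FS49.GoodS
import Pool.Agent.FS49.MaxSub
import Pool.Agent.FS49.Dense
import Pool.Agent.FS49.Sparse

/-!
# FS49/Main: assembly

`exists_final`, `good_sys`, `bdd_sys`; `D = (2 M · M (M + 2)) ^ 2` bounds the non neighbours in `s.H` (`far_count`). `Y` = all `t` with `BadTri 𝒞 s.v s.H t` and `¬ t ⊆ s.A`;
`T` from `max_sub Y M`. If `p ≤ T.card`: `dense_case` with `q = p` (`Sys.le`). Otherwise `sparse_case` with `W` = all `x` with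
`¬ (x ∈ s.A ∧ s.Exc x)` and degree in `T` different from `M`: `2 (A ∩ W).card + (W \ A).card ≥ n + A.card - 2 #Exc - 2 #Sat = 2 p - 2 #Exc - 2 #Sat`,
`M #Exc ≤ 4 p` (`exc_card`), `M #Sat ≤ 3 T.card ≤ 3 p` (`sat_card`).
-/

set_option autoImplicit false

namespace Pool.Agent.FS49

open Pool.Agent.HR54 Pool.Agent.RT16

theorem const_dense {M : ℕ} (hM : 1 ≤ M) :
    ((3 * (2 * M) * (M * (M + 2) * (M + 1))) ^ 2) ^ 2 + (3 * (2 * M) * (M * (M + 2) * (M + 1))) ^ 2
      ≤ 2 * 10 ^ 6 * M ^ 16 := by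
  have h1 : 3 * (2 * M) * (M * (M + 2) * (M + 1)) ≤ 36 * M ^ 4 := by
    have h2 : M + 2 ≤ 3 * M := by omega
    have h3 : M + 1 ≤ 2 * M := by omega
    calc 3 * (2 * M) * (M * (M + 2) * (M + 1)) ≤ 3 * (2 * M) * (M * (3 * M) * (2 * M)) := by
          gcongr
      _ = 36 * M ^ 4 := by ring
  have h4 : (3 * (2 * M) * (M * (M + 2) * (M + 1))) ^ 2 ≤ 1296 * M ^ 8 := by
    calc (3 * (2 * M) * (M * (M + 2) * (M + 1))) ^ 2 ≤ (36 * M ^ 4) ^ 2 := Nat.pow_le_pow_left h1 2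
      _ = 1296 * M ^ 8 := by ring
  have h5 : ((3 * (2 * M) * (M * (M + 2) * (M + 1))) ^ 2) ^ 2 ≤ 1679616 * M ^ 16 := by
    calc ((3 * (2 * M) * (M * (M + 2) * (M + 1))) ^ 2) ^ 2 ≤ (1296 * M ^ 8) ^ 2 :=
          Nat.pow_le_pow_left h4 2
      _ = 1679616 * M ^ 16 := by ring
  have h6 : M ^ 8 ≤ M ^ 16 := Nat.pow_le_pow_right hM (by norm_num)
  have h7 : 1 ≤ M ^ 16 := Nat.one_le_pow _ _ hM
  omega

theorem const_sparse {M : ℕ} (hM : 1 ≤ M) :
    ((2 * M * (M * (M + 2))) ^ 2 + 3 * M) ^ 2 + 1 ≤ 2 * (2 * 10 ^ 6 * M ^ 16) := by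
  have h1 : 2 * M * (M * (M + 2)) ≤ 6 * M ^ 3 := by
    have h2 : M + 2 ≤ 3 * M := by omega
    calc 2 * M * (M * (M + 2)) ≤ 2 * M * (M * (3 * M)) := by gcongr
      _ = 6 * M ^ 3 := by ring
  have h4 : (2 * M * (M * (M + 2))) ^ 2 ≤ 36 * M ^ 6 := by
    calc (2 * M * (M * (M + 2))) ^ 2 ≤ (6 * M ^ 3) ^ 2 := Nat.pow_le_pow_left h1 2
      _ = 36 * M ^ 6 := by ring
  have h5 : M ≤ M ^ 6 := Nat.le_self_pow (by norm_num) M
  have h6 : (2 * M * (M * (M + 2))) ^ 2 + 3 * M ≤ 39 * M ^ 6 := by omega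
  have h7 : ((2 * M * (M * (M + 2))) ^ 2 + 3 * M) ^ 2 ≤ 1521 * M ^ 12 := by
    calc ((2 * M * (M * (M + 2))) ^ 2 + 3 * M) ^ 2 ≤ (39 * M ^ 6) ^ 2 := Nat.pow_le_pow_left h6 2
      _ = 1521 * M ^ 12 := by ring
  have h8 : M ^ 12 ≤ M ^ 16 := Nat.pow_le_pow_right hM (by norm_num)
  have h9 : 1 ≤ M ^ 16 := Nat.one_le_pow _ _ hM
  omega

open Classical in
theorem main_core {V U : Type} [Finite V] [Fintype U] {G : SimpleGraph V} {p M : ℕ}
    (hM1 : 1 ≤ M) {𝒞 : Set (Set V)} {a : Fin p → V} (hF : Fam G 𝒞 a) {v : U → V}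
    {E : U → Finset (Fin p)} {H : SimpleGraph U} (hG : Good 𝒞 a v E H)
    (hB : Bdd E (2 * M) (M * (M + 2))) (hfar : ∀ x y, Far E x y → H.Adj x y)
    (A : Finset U) (Exc : U → Prop)
    (hA : ∀ x ∈ A, ∀ y ∈ A, x ≠ y → H.Adj x y)
    (hbad : ∀ x ∈ A, ∀ y ∈ A, ∀ z ∈ A, x ≠ y → x ≠ z → y ≠ z →
      Bad 𝒞 (v x) (v y) (v z) → Exc x ∨ Exc y ∨ Exc z)
    (hcard : 2 * p ≤ Fintype.card U + A.card) (hU : p ≤ Fintype.card U)
    (hExc : M * (A.filter fun r => Exc r).card ≤ 4 * p) {h : ℕ}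
    (hh : M * (h + 2 * 10 ^ 6 * M ^ 16) + 7 * p ≤ M * p) : CliqueMinor G h := by
  have hM0 : 0 < M := hM1
  obtain ⟨T, hTY, hdeg, hmax⟩ := max_sub
    (Finset.univ.filter fun t : Finset U => BadTri 𝒞 v H t ∧ ¬ t ⊆ A) M
  have hTbad : ∀ t ∈ T, BadTri 𝒞 v H t := fun t ht => (Finset.mem_filter.1 (hTY ht)).2.1
  have hT3 : ∀ t ∈ T, t.card ≤ 3 := by
    intro t ht
    obtain ⟨x, y, z, rfl, -⟩ := hTbad t ht
    exact Finset.card_le_three
  by_cases hc : p ≤ T.card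
  · refine dense_case hF hG hB T hTbad hdeg (q := p) (by omega) ?_
    have h1 := const_dense hM1
    have h2 : h + 2 * 10 ^ 6 * M ^ 16 ≤ p := by
      refine Nat.le_of_mul_le_mul_left (c := M) ?_ hM0
      omega
    omega
  · have hSat := sat_card T hT3 M
    set Sat := Finset.univ.filter fun x => (T.filter fun t => x ∈ t).card = M with hSatdef
    set EA := A.filter fun r => Exc r with hEA
    set W : Finset U := Finset.univ.filter fun x => x ∉ EA ∧ x ∉ Sat with hWdef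
    have hmW : ∀ x, x ∈ W ↔ x ∉ EA ∧ x ∉ Sat := fun x => by
      rw [hWdef, Finset.mem_filter]
      exact ⟨fun h => h.2, fun h => ⟨Finset.mem_univ _, h⟩⟩
    refine sparse_case hF hG A W hA ?_ (D := (2 * M * (M * (M + 2))) ^ 2) (M := M) ?_ T hT3 hdeg
      ?_ ?_
    · intro x hx y hy z hz hxy hxz hyz hb
      rw [Finset.mem_inter, hmW] at hx hy hz
      have hn : ∀ t, t ∈ A → t ∉ EA → ¬ Exc t := fun t h1 h2 h3 =>
        h2 (Finset.mem_filter.2 ⟨h1, h3⟩)
      rcases hbad x hx.1 y hy.1 z hz.1 hxy hxz hyz hb with h1 | h1 | h1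
      · exact hn x hx.1 hx.2.1 h1
      · exact hn y hy.1 hy.2.1 h1
      · exact hn z hz.1 hz.2.1 h1
    · intro x
      refine le_trans (Finset.card_le_card ?_) (far_count hB x)
      intro y hy
      rw [Finset.mem_filter] at hy ⊢
      exact ⟨hy.1, fun hf => hy.2 (hfar x y hf)⟩
    · intro x hx y hy z hz h1 h2 h3 hb hnA
      by_contra hnT
      obtain ⟨w, hw, hdw⟩ := hmax {x, y, z} (Finset.mem_filter.2 ⟨Finset.mem_univ _,
        ⟨x, y, z, rfl, h1, h2, h3, hb⟩, fun hsub => hnA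
          ⟨hsub (by simp), hsub (by simp), hsub (by simp)⟩⟩) hnT
      have hwS : w ∈ Sat := Finset.mem_filter.2 ⟨Finset.mem_univ _, hdw⟩
      rw [Finset.mem_insert, Finset.mem_insert, Finset.mem_singleton] at hw
      rcases hw with rfl | rfl | rfl
      · exact ((hmW _).1 hx).2 hwS
      · exact ((hmW _).1 hy).2 hwS
      · exact ((hmW _).1 hz).2 hwS
    · have c1 : A.card ≤ (A ∩ W).card + EA.card + (Sat ∩ A).card := by
        have hsub : A ⊆ (A ∩ W) ∪ EA ∪ (Sat ∩ A) := by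
          intro x hx
          by_cases h1 : x ∈ EA
          · simp [h1]
          · by_cases h2 : x ∈ Sat
            · simp [h2, hx]
            · have : x ∈ W := (hmW x).2 ⟨h1, h2⟩
              simp [this, hx]
        refine (Finset.card_le_card hsub).trans ?_
        refine (Finset.card_union_le _ _).trans ?_
        have := Finset.card_union_le (A ∩ W) EA
        omega
      have c2 : (Finset.univ \ A).card ≤ (W \ A).card + (Sat \ A).card := by
        have hsub : Finset.univ \ A ⊆ (W \ A) ∪ (Sat \ A) := by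
          intro x hx
          rw [Finset.mem_sdiff] at hx
          by_cases h2 : x ∈ Sat
          · simp [h2, hx.2]
          · have : x ∈ W := (hmW x).2 ⟨fun h1 => hx.2 (Finset.mem_filter.1 h1).1, h2⟩
            simp [this, hx.2]
        exact (Finset.card_le_card hsub).trans (Finset.card_union_le _ _)
      have c3 : (Finset.univ \ A).card + A.card = Fintype.card U := by
        rw [Finset.card_sdiff_add_card_eq_card (Finset.subset_univ A), Finset.card_univ]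
      have c4 : (Sat ∩ A).card + (Sat \ A).card = Sat.card := by
        rw [add_comm]
        exact Finset.card_sdiff_add_card_inter Sat A
      have c5 : 2 * p ≤ 2 * (A ∩ W).card + (W \ A).card + 2 * EA.card + 2 * Sat.card := by
        omega
      have c6 : M * (2 * p) ≤ M * (2 * (A ∩ W).card + (W \ A).card + 2 * EA.card + 2 * Sat.card) :=
        Nat.mul_le_mul_left M c5
      have c7 : M * (2 * (A ∩ W).card + (W \ A).card + 2 * EA.card + 2 * Sat.card) =
          M * (2 * (A ∩ W).card + (W \ A).card) + 2 * (M * EA.card) + 2 * (M * Sat.card) := by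
        ring
      have c8 : M * (2 * h + 2 * (2 * 10 ^ 6 * M ^ 16)) ≤
          M * (2 * (A ∩ W).card + (W \ A).card) := by
        have e1 : M * (2 * h + 2 * (2 * 10 ^ 6 * M ^ 16)) =
            2 * (M * (h + 2 * 10 ^ 6 * M ^ 16)) := by ring
        have e2 : M * (2 * p) = 2 * (M * p) := by ring
        omega
      have c9 := Nat.le_of_mul_le_mul_left c8 hM0
      have c10 := const_sparse hM1
      omega

/-- The combinatorial main theorem, with explicit constants. -/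
theorem main_fam {M : ℕ} (hM : 1 ≤ M) {V : Type} [Finite V] {G : SimpleGraph V} {p : ℕ}
    {𝒞 : Set (Set V)} {a : Fin p → V} (hF : Fam G 𝒞 a) {h : ℕ}
    (hh : M * (h + 2 * 10 ^ 6 * M ^ 16) + 7 * p ≤ M * p) : CliqueMinor G h := by
  obtain ⟨n, s, hs⟩ := exists_final hF hM
  have hG := good_sys s
  have hB := bdd_sys s
  have hle := s.le
  refine main_core hM hF hG hB ?_ s.A s.Exc ?_ hs ?_ ?_ (exc_card s) hh
  · intro x y hf
    exact ⟨Far.ne hG.isys hf, Or.inl hf⟩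
  · intro x hx y hy hxy
    exact ⟨hxy, Or.inr ⟨hx, hy⟩⟩
  · rw [Fintype.card_fin, s.card]
  · rw [Fintype.card_fin]
    exact hle

/-- If some convexity on a finite graph fails `(R_p)`, then `K_h` is a minor for every
`h ≤ p - C p ^ (16/17)`. -/
theorem main_pow : ∃ C : ℝ, ∀ (V : Type) [Finite V] (G : SimpleGraph V) (p : ℕ)
    (𝒞 : Set (Set V)), IsConvexity G 𝒞 → ¬ Radon 𝒞 p → ∀ h : ℕ,
      (h : ℝ) ≤ p - C * (p : ℝ) ^ (16 / 17 : ℝ) → CliqueMinor G h := by
  refine ⟨7 + 2 * 10 ^ 6 * 2 ^ 16, ?_⟩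
  intro V _ G p 𝒞 hC hR h hh
  obtain ⟨a, hF⟩ := fam_of_not_radon hC hR
  rcases Nat.eq_zero_or_pos p with rfl | hp
  · have h0 : h = 0 := by
      have h1 : (0 : ℝ) ^ (16 / 17 : ℝ) = 0 := Real.zero_rpow (by norm_num)
      rw [Nat.cast_zero, h1, mul_zero, sub_zero] at hh
      exact_mod_cast le_antisymm hh (Nat.cast_nonneg h)
    subst h0
    exact ⟨fun i => i.elim0, fun i => i.elim0, fun i => i.elim0, fun i => i.elim0⟩
  · have hp1 : (1 : ℝ) ≤ p := by exact_mod_cast hp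
    have hp0 : (0 : ℝ) < p := by linarith
    set r : ℝ := (p : ℝ) ^ (1 / 17 : ℝ) with hr
    have hr1 : 1 ≤ r := Real.one_le_rpow hp1 (by norm_num)
    have hr16 : r ^ 16 = (p : ℝ) ^ (16 / 17 : ℝ) := by
      rw [hr, ← Real.rpow_natCast, ← Real.rpow_mul hp0.le]
      norm_num
    have hr17 : r ^ 17 = p := by
      rw [hr, ← Real.rpow_natCast, ← Real.rpow_mul hp0.le]
      norm_num
    set M : ℕ := ⌈r⌉₊ with hMdef
    have hM1 : r ≤ M := Nat.le_ceil r
    have hM2 : (M : ℝ) ≤ 2 * r := by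
      have := Nat.ceil_lt_add_one (show (0 : ℝ) ≤ r by linarith)
      linarith
    have hM : 1 ≤ M := by
      have : (1 : ℝ) ≤ M := hr1.trans hM1
      exact_mod_cast this
    refine main_fam hM hF ?_
    have hMpos : (0 : ℝ) < M := by linarith
    have hM16 : (M : ℝ) ^ 16 ≤ 2 ^ 16 * r ^ 16 := by
      calc (M : ℝ) ^ 16 ≤ (2 * r) ^ 16 := pow_le_pow_left₀ hMpos.le hM2 16
        _ = 2 ^ 16 * r ^ 16 := by ring
    have hp7 : 7 * (p : ℝ) ≤ M * (7 * r ^ 16) := by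
      rw [← hr17]
      have h1 : 0 ≤ r ^ 16 := by positivity
      have h2 : r * r ^ 16 ≤ M * r ^ 16 := mul_le_mul_of_nonneg_right hM1 h1
      nlinarith [h2]
    rw [← hr16] at hh
    have key : (M : ℝ) * (h + 2 * 10 ^ 6 * (M : ℝ) ^ 16) + 7 * p ≤ M * p := by
      have h1 : (h : ℝ) + 2 * 10 ^ 6 * (M : ℝ) ^ 16 + 7 * r ^ 16 ≤ p := by
        nlinarith [hM16]
      have h2 := mul_le_mul_of_nonneg_left h1 hMpos.le
      linarith
    exact_mod_cast key

end Pool.Agent.FS49
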