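import Pool.Agent.FS49.StartS

/-!
# FS49/Start: the system of the `p` points

`n = p`, `v = a`, `S i = {i}`, `u = id`, `A = univ`. (`inC_point`; `M ≥ 1`.)
-/

set_option autoImplicit false

namespace Pool.Agent.FS49

open Pool.Agent.HR54 Pool.Agent.RT16

theorem sys_start {V : Type} {p : ℕ} {𝒞 : Set (Set V)} (a : Fin p → V) {M : ℕ} (hM : 1 ≤ M) :
    Nonempty (Sys 𝒞 a M p) :=
  sys_startS a hM

end Pool.Agent.FS49
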