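import Pool.Agent.FS49.Base

/-!
# FS49/StartS: the system of the `p` points, proof
-/

set_option autoImplicit false

namespace Pool.Agent.FS49

open Pool.Agent.HR54 Pool.Agent.RT16

theorem sys_startS {V : Type} {p : ℕ} {𝒞 : Set (Set V)} (a : Fin p → V) {M : ℕ} (hM : 1 ≤ M) :
    Nonempty (Sys 𝒞 a M p) := by
  classical
  have hd : ∀ x y : Fin p, x ≠ y → Disjoint ({x} : Finset (Fin p)) {y} := fun x y h => by
    rw [Finset.disjoint_singleton]
    exact h
  refine ⟨{ v := a, S := fun i => {i}, u := id, A := Finset.univ,
            mem := fun i => inC_point i,
            ne := fun i => ⟨i, Finset.mem_singleton_self i⟩,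
            small := fun i => by rw [Finset.card_singleton]; exact hM,
            sep := fun x y h => ⟨{x}, {y}, Finset.subset_union_left, Finset.subset_union_left,
              hd x y h, inC_point x, inC_point y⟩,
            adisj := fun r _ s _ h => hd r s h,
            lam := fun r _ x => ?_,
            avoid := fun r _ x h => Or.inl (hd r x (Ne.symm h)),
            cover := fun i => ⟨i, Finset.mem_univ _, Finset.mem_singleton_self i⟩,
            chain := fun r _ i hi => ?_,
            mult := fun y => ?_,
            card := ?_ }⟩
  · by_cases h : x = r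
    · left
      rw [h]
    · exact Or.inr (hd x r h)
  · rw [Finset.card_singleton, Finset.card_le_one]
    intro b hb c hc
    rw [Finset.mem_filter, Finset.mem_singleton] at hb hc
    rw [← hb.2, ← hc.2]
  · refine le_trans ?_ (Nat.le_add_left 1 M)
    rw [Finset.card_le_one]
    intro b hb c hc
    rw [Finset.mem_filter] at hb hc
    exact (hb.2.trans hc.2.symm)
  · rw [Finset.card_univ, Fintype.card_fin]
    ring

end Pool.Agent.FS49
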